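import Pool.Agent.Lib.MP_77266e_gtP.CaseA

/-!
# Case B, part 1: closures of unions of finite blocks
-/

namespace Pool.Agent.Lib.MP_77266e_gtP

open Set Topology Filter
open Pool.Agent.Lib.MP_77266e_gt

universe u v

/-- the union of the blocks with index in `J` -/
def EJ {E : Type u} (B : ℕ → Finset E) (J : Set ℕ) : Set E := ⋃ n ∈ J, (B n : Set E)

section

variable {E : Type u} [TopologicalSpace E]

lemma mem_EJ {B : ℕ → Finset E} {J : Set ℕ} {x : E} : x ∈ EJ B J ↔ ∃ n ∈ J, x ∈ B n := by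
  simp only [EJ, mem_iUnion, Finset.mem_coe, exists_prop]

lemma mem_cj {B : ℕ → Finset E} {J : Set ℕ} {n : ℕ} (hn : n ∈ J) {d : E} (hd : d ∈ B n) :
    d ∈ closure (EJ B J) := subset_closure (mem_EJ.2 ⟨n, hn, hd⟩)

lemma cj_block [T2Space E] {B : ℕ → Finset E} {O : ℕ → Set E} (hO : ∀ n, IsOpen (O n))
    (hd : Pairwise fun m n => Disjoint (O m) (O n)) (hB : ∀ n, (B n : Set E) ⊆ O n) {J : Set ℕ}
    {n : ℕ} {x : E} (hx : x ∈ closure (EJ B J)) (hxn : x ∈ O n) : n ∈ J ∧ x ∈ B n := by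
  have h1 : x ∈ closure (O n ∩ EJ B J) := by
    rw [mem_closure_iff] at hx ⊢
    intro V hV hxV
    obtain ⟨z, hz, hz'⟩ := hx (V ∩ O n) (hV.inter (hO n)) ⟨hxV, hxn⟩
    exact ⟨z, hz.1, hz.2, hz'⟩
  have h2 : O n ∩ EJ B J ⊆ {z | n ∈ J ∧ z ∈ B n} := by
    rintro z ⟨hz, hz'⟩
    obtain ⟨m, hm, hzm⟩ := mem_EJ.1 hz'
    have h3 : m = n := by
      by_contra hne
      exact (hd hne).le_bot ⟨hB m hzm, hz⟩
    subst h3
    exact ⟨hm, hzm⟩
  have h4 : IsClosed {z | n ∈ J ∧ z ∈ B n} := by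
    have h5 : {z | n ∈ J ∧ z ∈ B n} ⊆ (B n : Set E) := fun z hz => hz.2
    exact ((B n).finite_toSet.subset h5).isClosed
  exact closure_minimal h2 h4 h1

lemma iso_block [T2Space E] {B : ℕ → Finset E} {O : ℕ → Set E} (hO : ∀ n, IsOpen (O n))
    (hd : Pairwise fun m n => Disjoint (O m) (O n)) (hB : ∀ n, (B n : Set E) ⊆ O n) {J : Set ℕ}
    {n : ℕ} {x : E} (hx : x ∈ closure (EJ B J)) (hxn : x ∈ B n) :
    IsOpen ({⟨x, hx⟩} : Set (closure (EJ B J))) := by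
  classical
  have h1 : IsOpen (O n ∩ ((((B n).erase x : Finset E) : Set E))ᶜ) :=
    (hO n).inter ((B n).erase x).finite_toSet.isClosed.isOpen_compl
  have h2 : ({⟨x, hx⟩} : Set (closure (EJ B J))) =
      Subtype.val ⁻¹' (O n ∩ ((((B n).erase x : Finset E) : Set E))ᶜ) := by
    ext z
    constructor
    · rintro rfl
      exact ⟨hB n hxn, fun h => (Finset.mem_erase.1 (Finset.mem_coe.1 h)).1 rfl⟩
    · rintro ⟨hz1, hz2⟩
      have h3 := (cj_block hO hd hB z.2 hz1).2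
      by_contra hne
      exact hz2 (Finset.mem_coe.2 (Finset.mem_erase.2 ⟨fun h => hne (Subtype.ext h), h3⟩))
  rw [h2]
  exact h1.preimage continuous_subtype_val

lemma iso_mem {S : Set E} (q : closure S) (hq : IsOpen ({q} : Set (closure S))) : (q : E) ∈ S := by
  obtain ⟨U, hU, h⟩ := isOpen_induced_iff.1 hq
  have hqU : (q : E) ∈ U := by
    have h1 : q ∈ Subtype.val ⁻¹' U := by rw [h]; exact mem_singleton q
    exact h1
  obtain ⟨z, hz, hzS⟩ := mem_closure_iff.1 q.2 U hU hqU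
  have h2 : (⟨z, subset_closure hzS⟩ : closure S) ∈ Subtype.val ⁻¹' U := hz
  rw [h] at h2
  have h3 : z = q := congrArg Subtype.val h2
  rw [← h3]
  exact hzS

/-- crowded sets are infinite -/
lemma crowded_infinite [T1Space E] {S : Set E} (hne : S.Nonempty)
    (hS : ∀ x ∈ S, x ∈ closure (S \ {x})) : S.Infinite := by
  intro hfin
  obtain ⟨x, hx⟩ := hne
  have h1 : IsClosed (S \ {x}) := (hfin.subset sdiff_subset).isClosed
  have h2 := hS x hx
  rw [h1.closure_eq] at h2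
  exact h2.2 rfl

end

section

variable {E : Type u} [TopologicalSpace E] [CompactSpace E] [T2Space E] [TotallyDisconnectedSpace E]

/-- separation of closed sets by clopen sets -/
lemma sep_closed {K L : Set E} (hK : IsClosed K) (hL : IsClosed L) (h : Disjoint K L) :
    ∃ b : Set E, IsClopen b ∧ K ⊆ b ∧ Disjoint b L := by
  have h1 : ∀ x : K, ∃ b : Set E, IsClopen b ∧ (x : E) ∈ b ∧ b ⊆ Lᶜ := fun x =>
    compact_exists_isClopen_in_isOpen hL.isOpen_compl (fun hx => h.le_bot ⟨x.2, hx⟩)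
  choose b hb1 hb2 hb3 using h1
  obtain ⟨t, ht⟩ := hK.isCompact.elim_finite_subcover b (fun x => (hb1 x).isOpen)
    (fun x hx => mem_iUnion.2 ⟨⟨x, hx⟩, hb2 _⟩)
  refine ⟨⋃ x ∈ t, b x, t.finite_toSet.isClopen_biUnion fun x _ => hb1 x, ht, ?_⟩
  rw [Set.disjoint_left]
  intro z hz hzL
  obtain ⟨x, -, hx⟩ := mem_iUnion₂.1 hz
  exact hb3 x hx hzL

omit [CompactSpace E] [T2Space E] [TotallyDisconnectedSpace E] in
lemma null_mono {F F' : ℕ → Set E} (h : Null F) (hs : ∀ n, F' n ⊆ F n) : Null F' := by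
  intro b hb
  refine (h b hb).subset ?_
  rintro n ⟨h1, h2⟩
  exact ⟨h1.mono (inter_subset_inter_left b (hs n)), fun h3 => h2 ((hs n).trans h3)⟩

/-- clopen sets of an image cut finitely many blocks -/
lemma cut_finite {X : Type v} [TopologicalSpace X] {B : ℕ → Finset E}
    (hnull : Null fun n => (B n : Set E)) {J : Set ℕ} {h : closure (EJ B J) → X}
    (hh : Continuous h) {W : Set X} (hW : IsClopen W) :
    {n | n ∈ J ∧ (∃ (d : E) (_ : d ∈ B n) (hd : d ∈ closure (EJ B J)), h ⟨d, hd⟩ ∈ W) ∧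
      ∃ (d : E) (_ : d ∈ B n) (hd : d ∈ closure (EJ B J)), h ⟨d, hd⟩ ∉ W}.Finite := by
  have hc : CompactSpace (closure (EJ B J)) :=
    isCompact_iff_compactSpace.1 isClosed_closure.isCompact
  have hcl : ∀ W' : Set X, IsClosed W' → IsClosed (Subtype.val '' (h ⁻¹' W') : Set E) := by
    intro W' hW'
    exact ((hW'.preimage hh).isCompact.image continuous_subtype_val).isClosed
  have hdis : Disjoint (Subtype.val '' (h ⁻¹' W) : Set E) (Subtype.val '' (h ⁻¹' Wᶜ)) := by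
    rw [Set.disjoint_left]
    rintro _ ⟨x, hx, rfl⟩ ⟨y, hy, hxy⟩
    have h1 : y = x := Subtype.ext hxy
    rw [h1] at hy
    exact hy hx
  obtain ⟨b, hb, hb1, hb2⟩ := sep_closed (hcl W hW.isClosed) (hcl Wᶜ hW.compl.isClosed) hdis
  refine (hnull b hb).subset ?_
  rintro n ⟨-, ⟨d, hdn, hd, h1⟩, ⟨d', hdn', hd', h2⟩⟩
  refine ⟨⟨d, hdn, hb1 ⟨_, h1, rfl⟩⟩, fun hs => ?_⟩
  exact hb2.le_bot ⟨hs hdn', ⟨_, h2, rfl⟩⟩

end

end Pool.Agent.Lib.MP_77266e_gtP
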