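import Pool.Agent.Lib.MP_77266e_gtP.Fam

/-!
# Case A: convergent sequences of members of `G` in every member of `G`
-/

namespace Pool.Agent.Lib.MP_77266e_gtP

open Set Topology Filter
open Pool.Agent.Lib.MP_77266e_gt

universe u

/-- `Φ` contains members of `G` which converge to a point. -/
def ConvIn {E : Type u} [TopologicalSpace E] (G : Set (Set E)) (Φ : Set E) : Prop :=
  ∃ (p : E) (F : ℕ → Set E), (∀ n, F n ∈ G) ∧ (∀ n, F n ⊆ Φ) ∧
    ∀ b : Set E, IsClopen b → p ∈ b → ∃ N, ∀ n, N ≤ n → F n ⊆ b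

variable {E : Type u} [TopologicalSpace E] [CompactSpace E] [T2Space E] [TotallyDisconnectedSpace E]

lemma sep_clopen {x y : E} (h : x ≠ y) : ∃ b : Set E, IsClopen b ∧ x ∈ b ∧ y ∉ b := by
  obtain ⟨b, hb, hx, hs⟩ := compact_exists_isClopen_in_isOpen (isOpen_compl_singleton (x := y))
    (show x ∈ ({y} : Set E)ᶜ from h)
  exact ⟨b, hb, hx, fun hy => hs hy rfl⟩

lemma exists_two {G : Set (Set E)} (hG : GF G) {O : Set E} (hO : O ∈ G) (p : E) :
    ∃ z ∈ O, z ≠ p := by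
  obtain ⟨x, hx⟩ := hG.ne O hO
  by_cases h : x = p
  · obtain ⟨z, -, hz⟩ := mem_closure_iff.1 (hG.crowded O hO x hx) univ isOpen_univ (mem_univ _)
    exact ⟨z, hz.1, fun h' => hz.2 (h'.trans h.symm)⟩
  · exact ⟨x, hx, h⟩

theorem rich_of_conv {G : Set (Set E)} (hG : GF G) (hA : ∀ Φ ∈ G, ConvIn G Φ) : Rich G := by
  refine ⟨fun O hO => ?_, fun O hO => ?_, fun O hO => ?_⟩
  · obtain ⟨x, hx⟩ := hG.ne O hO
    obtain ⟨z, hz, hzx⟩ := exists_two hG hO x
    obtain ⟨b, hb, hxb, hzb⟩ := sep_clopen hzx.symm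
    exact ⟨O ∩ b, hG.inter O hO b hb ⟨x, hx, hxb⟩, O ∩ bᶜ, hG.inter O hO _ hb.compl ⟨z, hz, hzb⟩,
      inter_subset_left, inter_subset_left,
      disjoint_compl_right.mono inter_subset_right inter_subset_right⟩
  · have hc : CompactSpace O := isCompact_iff_compactSpace.1 (hG.closed O hO).isCompact
    obtain ⟨x, hx⟩ := hG.ne O hO
    refine ⟨O, inferInstance, hc, Subtype.val, IsEmbedding.subtypeVal, ?_, ⟨⟨x, hx⟩⟩,
      crowded_coe (hG.crowded O hO)⟩
    rw [Subtype.range_coe]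
  · obtain ⟨p, F, hF1, hF2, hF3⟩ := hA O hO
    have hpO : p ∈ O := by
      rw [← (hG.closed O hO).closure_eq, mem_closure_iff]
      intro V hV hpV
      obtain ⟨b, hb, hpb, hbV⟩ := compact_exists_isClopen_in_isOpen hV hpV
      obtain ⟨N, hN⟩ := hF3 b hb hpb
      obtain ⟨x, hx⟩ := hG.ne _ (hF1 N)
      exact ⟨x, hbV (hN N le_rfl hx), hF2 N hx⟩
    have step : ∀ (V : Set E) (k : ℕ), IsClopen V → p ∈ V → ∃ V' W' : Set E, IsClopen V' ∧ p ∈ V' ∧
        V' ⊆ V ∧ W' ∈ G ∧ W' ⊆ V ∧ Disjoint V' W' ∧ p ∉ W' ∧ ∃ n, k ≤ n ∧ W' ⊆ F n := by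
      intro V k hV hpV
      obtain ⟨N, hN⟩ := hF3 V hV hpV
      obtain ⟨z, hz, hzp⟩ := exists_two hG (hF1 (max N k)) p
      obtain ⟨c, hc, hzc, hpc⟩ := sep_clopen hzp
      refine ⟨V ∩ cᶜ, F (max N k) ∩ c, hV.inter hc.compl, ⟨hpV, hpc⟩, inter_subset_left,
        hG.inter _ (hF1 _) c hc ⟨z, hz, hzc⟩, inter_subset_left.trans (hN _ (le_max_left _ _)),
        disjoint_compl_left.mono inter_subset_right inter_subset_right, fun h => hpc h.2,
        max N k, le_max_right _ _, inter_subset_left⟩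
    choose! S1 S2 h1 h2 h3 h4 h6 h7 h8 h9 using step
    let V : ℕ → Set E := fun n => Nat.rec univ (fun k Vk => S1 Vk k) n
    have V0 : V 0 = univ := rfl
    have VS : ∀ k, V (k + 1) = S1 (V k) k := fun k => rfl
    have hV : ∀ n, IsClopen (V n) ∧ p ∈ V n := by
      intro n
      induction n with
      | zero => exact ⟨isClopen_univ, mem_univ _⟩
      | succ k ih =>
        rw [VS]
        exact ⟨h1 _ k ih.1 ih.2, h2 _ k ih.1 ih.2⟩
    have hsub : ∀ k, V (k + 1) ⊆ V k := fun k => by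
      rw [VS]; exact h3 _ k (hV k).1 (hV k).2
    have hanti : Antitone V := antitone_nat_of_succ_le hsub
    refine ⟨p, hpO, fun n => S2 (V n) n, fun n => h4 _ n (hV n).1 (hV n).2, fun n => ?_,
      fun n => h8 _ n (hV n).1 (hV n).2, ?_, ?_⟩
    · obtain ⟨k, -, hk⟩ := h9 _ n (hV n).1 (hV n).2
      exact hk.trans (hF2 k)
    · have key : ∀ m n, m < n → Disjoint (S2 (V m) m) (S2 (V n) n) := by
        intro m n hmn
        have e1 : S2 (V n) n ⊆ S1 (V m) m := by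
          refine (h6 _ n (hV n).1 (hV n).2).trans ?_
          rw [← VS]
          exact hanti hmn
        exact ((h7 _ m (hV m).1 (hV m).2).symm).mono_right e1
      intro m n hmn
      rcases lt_or_gt_of_ne hmn with h | h
      · exact key _ _ h
      · exact (key _ _ h).symm
    · intro U hU hpU
      obtain ⟨b, hb, hpb, hbU⟩ := compact_exists_isClopen_in_isOpen hU hpU
      obtain ⟨N, hN⟩ := hF3 b hb hpb
      refine ⟨N, fun n hn => ?_⟩
      obtain ⟨k, hk, hk2⟩ := h9 _ n (hV n).1 (hV n).2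
      exact hk2.trans ((hN k (hn.trans hk)).trans hbU)

end Pool.Agent.Lib.MP_77266e_gtP
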