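import Pool.Agent.Lib.MP_77266e_gtP.Ray

/-!
# Case B: null sequences without convergent subsequences
-/

namespace Pool.Agent.Lib.MP_77266e_gtP

open Set Topology Filter
open Pool.Agent.Lib.MP_77266e_gt

universe u v

/-- almost disjoint family -/
def adJ (f : ℕ → Bool) : Set ℕ :=
  range fun k : ℕ => Encodable.encode (List.ofFn fun i : Fin k => f i)

lemma adJ_infinite (f : ℕ → Bool) : (adJ f).Infinite := by
  apply infinite_range_of_injective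
  intro k k' h
  have h1 := congrArg List.length (Encodable.encode_injective h)
  simpa using h1

lemma adJ_fin {f g : ℕ → Bool} (h : f ≠ g) : (adJ f ∩ adJ g).Finite := by
  obtain ⟨m, hm⟩ := Function.ne_iff.1 h
  refine ((Finset.range (m + 1)).finite_toSet.image
    fun k : ℕ => Encodable.encode (List.ofFn fun i : Fin k => f i)).subset ?_
  rintro x ⟨⟨k, hk⟩, ⟨k', hk'⟩⟩
  have h1 : (List.ofFn fun i : Fin k => f i) = List.ofFn fun i : Fin k' => g i :=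
    Encodable.encode_injective (hk.trans hk'.symm)
  have h2 : k = k' := by simpa using congrArg List.length h1
  subst h2
  refine ⟨k, ?_, hk⟩
  by_contra hlt
  have hlt' : m < k := by
    by_contra h3
    exact hlt (Finset.mem_coe.2 (Finset.mem_range.2 (by omega)))
  exact hm (congrFun (List.ofFn_injective h1) ⟨m, hlt'⟩)

variable {E : Type u} [TopologicalSpace E] [CompactSpace E] [T2Space E] [TotallyDisconnectedSpace E]

lemma exists_disj {G : Set (Set E)} (hG : GF G) {Φ : Set E} (hΦ : Φ ∈ G) :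
    ∃ O : ℕ → Set E, (∀ n, IsClopen (O n)) ∧ (Pairwise fun m n => Disjoint (O m) (O n)) ∧
      ∀ n, Φ ∩ O n ∈ G := by
  have step : ∀ V : Set E, (IsClopen V ∧ Φ ∩ V ∈ G) → ∃ V' O' : Set E, (IsClopen V' ∧ Φ ∩ V' ∈ G) ∧
      V' ⊆ V ∧ IsClopen O' ∧ Φ ∩ O' ∈ G ∧ O' ⊆ V ∧ Disjoint V' O' := by
    rintro V ⟨hV, hVG⟩
    obtain ⟨x, hx⟩ := hG.ne _ hVG
    obtain ⟨z, hz, hzx⟩ := exists_two hG hVG x
    obtain ⟨b, hb, hxb, hzb⟩ := sep_clopen hzx.symm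
    refine ⟨V ∩ b, V ∩ bᶜ, ⟨hV.inter hb, ?_⟩, inter_subset_left, hV.inter hb.compl, ?_,
      inter_subset_left, disjoint_compl_right.mono inter_subset_right inter_subset_right⟩
    · rw [← inter_assoc]
      exact hG.inter _ hVG b hb ⟨x, hx, hxb⟩
    · rw [← inter_assoc]
      exact hG.inter _ hVG _ hb.compl ⟨z, hz, hzb⟩
  choose! S1 S2 h1 h2 h3 h4 h5 h6 using step
  let V : ℕ → Set E := fun n => Nat.rec univ (fun _ Vk => S1 Vk) n
  have VS : ∀ k, V (k + 1) = S1 (V k) := fun k => rfl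
  have hV : ∀ n, IsClopen (V n) ∧ Φ ∩ V n ∈ G := by
    intro n
    induction n with
    | zero =>
      refine ⟨isClopen_univ, ?_⟩
      show Φ ∩ univ ∈ G
      rw [inter_univ]; exact hΦ
    | succ k ih =>
      rw [VS]; exact h1 _ ih
  have hsub : ∀ k, V (k + 1) ⊆ V k := fun k => by
    rw [VS]; exact h2 _ (hV k)
  have hanti : Antitone V := antitone_nat_of_succ_le hsub
  refine ⟨fun n => S2 (V n), fun n => h3 _ (hV n), ?_, fun n => h4 _ (hV n)⟩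
  have key : ∀ m n, m < n → Disjoint (S2 (V m)) (S2 (V n)) := by
    intro m n hmn
    have e1 : S2 (V n) ⊆ S1 (V m) := by
      refine (h5 _ (hV n)).trans ?_
      rw [← VS]
      exact hanti hmn
    exact ((h6 _ (hV m)).symm).mono_right e1
  intro m n hmn
  rcases lt_or_gt_of_ne hmn with h | h
  · exact key _ _ h
  · exact (key _ _ h).symm

omit [TotallyDisconnectedSpace E] in
lemma R_nonempty {B : ℕ → Finset E} {O : ℕ → Set E} (S : Blk B O) {J : Set ℕ} (hJ : J.Infinite) :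
    ∃ p, p ∈ closure (EJ B J) ∧ p ∉ EJ B J := by
  by_contra hcon
  push Not at hcon
  have h1 : closure (EJ B J) ⊆ ⋃ n, O n := by
    intro z hz
    obtain ⟨n, -, hzn⟩ := mem_EJ.1 (hcon z hz)
    exact mem_iUnion.2 ⟨n, S.sub n hzn⟩
  obtain ⟨t, ht⟩ := isClosed_closure.isCompact.elim_finite_subcover O S.oO h1
  obtain ⟨n, hn, hnt⟩ := hJ.exists_notMem_finset t
  have h2 : (B n).Nonempty := by
    rw [← Finset.card_pos, S.card]
    exact Nat.two_pow_pos n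
  obtain ⟨z, hz⟩ := h2
  obtain ⟨m, hm, hzm⟩ := mem_iUnion₂.1 (ht (mem_cj hn hz))
  have h3 : m ≠ n := fun h => hnt (h ▸ hm)
  exact (S.dO h3).le_bot ⟨hzm, S.sub n hz⟩

lemma R_crowded {B : ℕ → Finset E} {O : ℕ → Set E} (S : Blk B O) {G : Set (Set E)} {Φ : Set E}
    {F : ℕ → Set E} (hF : ∀ n, F n ∈ G) (hFΦ : ∀ n, F n ⊆ Φ) (hBF : ∀ n, (B n : Set E) ⊆ F n)
    (hnull : Null F) (hΦ : ¬ ConvIn G Φ) (J : Set ℕ) :
    ∀ p ∈ closure (EJ B J) \ EJ B J, p ∈ closure ((closure (EJ B J) \ EJ B J) \ {p}) := by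
  classical
  rintro p ⟨hp, hpE⟩
  by_contra hcon
  rw [mem_closure_iff] at hcon
  push Not at hcon
  obtain ⟨U, hU, hpU, hUR⟩ := hcon
  obtain ⟨b, hb, hpb, hbU⟩ := compact_exists_isClopen_in_isOpen hU hpU
  have hpB : ∀ n, p ∉ B n := fun n hn => by
    have h2 := cj_block S.oO S.dO S.sub hp (S.sub n hn)
    exact hpE (mem_EJ.2 ⟨n, h2.1, h2.2⟩)
  have hS : {n | n ∈ J ∧ F n ⊆ b}.Infinite := by
    intro hfin
    have hfin2 := hfin.union (hnull b hb)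
    obtain ⟨t, ht⟩ := hfin2.exists_finset_coe
    obtain ⟨z, hz, hzE⟩ := mem_closure_iff.1 hp (b ∩ ((t.biUnion B : Finset E) : Set E)ᶜ)
      (hb.isOpen.inter (t.biUnion B).finite_toSet.isClosed.isOpen_compl)
      ⟨hpb, fun h1 => by
        obtain ⟨m, -, hm⟩ := Finset.mem_biUnion.1 (Finset.mem_coe.1 h1)
        exact hpB m hm⟩
    obtain ⟨n, hn, hzn⟩ := mem_EJ.1 hzE
    apply hz.2
    refine Finset.mem_coe.2 (Finset.mem_biUnion.2 ⟨n, ?_, hzn⟩)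
    rw [← Finset.mem_coe, ht]
    by_cases h : F n ⊆ b
    · exact Or.inl ⟨hn, h⟩
    · exact Or.inr ⟨⟨z, hBF n hzn, hz.1⟩, h⟩
  have hinf := hS.to_subtype
  obtain ⟨e, he, heS⟩ : ∃ e : ℕ → ℕ, StrictMono e ∧ ∀ k, e k ∈ {n | n ∈ J ∧ F n ⊆ b} :=
    ⟨Nat.orderEmbeddingOfSet {n | n ∈ J ∧ F n ⊆ b}, (Nat.orderEmbeddingOfSet _).strictMono,
      fun k => by
        have h1 := Nat.orderEmbeddingOfSet_range {n | n ∈ J ∧ F n ⊆ b}
        have h2 : Nat.orderEmbeddingOfSet {n | n ∈ J ∧ F n ⊆ b} k ∈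
            range (Nat.orderEmbeddingOfSet {n | n ∈ J ∧ F n ⊆ b}) := mem_range_self k
        exact h1.subset h2⟩
  apply hΦ
  refine ⟨p, fun k => F (e k), fun k => hF _, fun k => hFΦ _, fun b' hb' hpb' => ?_⟩
  have hT : {n | n ∈ J ∧ F n ⊆ b ∧ ¬ F n ⊆ b'}.Finite := by
    by_contra hT
    have hT2 : ({n | n ∈ J ∧ F n ⊆ b ∧ ¬ F n ⊆ b'} \
        {n | (F n ∩ b').Nonempty ∧ ¬ F n ⊆ b'}).Infinite := Set.Infinite.sdiff hT (hnull b' hb')
    obtain ⟨q, hq, hqE⟩ := R_nonempty S hT2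
    have h1 : ∀ n ∈ ({n | n ∈ J ∧ F n ⊆ b ∧ ¬ F n ⊆ b'} \
        {n | (F n ∩ b').Nonempty ∧ ¬ F n ⊆ b'}), n ∈ J ∧ (B n : Set E) ⊆ b ∩ b'ᶜ := by
      rintro n ⟨⟨h1, h2, h3⟩, h4⟩
      refine ⟨h1, fun z hz => ⟨h2 (hBF n hz), fun hz' => h4 ⟨⟨z, hBF n hz, hz'⟩, h3⟩⟩⟩
    have h2 : closure (EJ B ({n | n ∈ J ∧ F n ⊆ b ∧ ¬ F n ⊆ b'} \
        {n | (F n ∩ b').Nonempty ∧ ¬ F n ⊆ b'})) ⊆ b ∩ b'ᶜ := by
      refine closure_minimal ?_ (hb.isClosed.inter hb'.compl.isClosed)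
      intro z hz
      obtain ⟨n, hn, hzn⟩ := mem_EJ.1 hz
      exact (h1 n hn).2 hzn
    have h3 : closure (EJ B ({n | n ∈ J ∧ F n ⊆ b ∧ ¬ F n ⊆ b'} \
        {n | (F n ∩ b').Nonempty ∧ ¬ F n ⊆ b'})) ⊆ closure (EJ B J) := by
      apply closure_mono
      intro z hz
      obtain ⟨n, hn, hzn⟩ := mem_EJ.1 hz
      exact mem_EJ.2 ⟨n, (h1 n hn).1, hzn⟩
    have h4 : q ∉ EJ B J := by
      intro h4
      obtain ⟨m, -, hqm⟩ := mem_EJ.1 h4
      have h5 := cj_block S.oO S.dO S.sub hq (S.sub m hqm)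
      exact hqE (mem_EJ.2 ⟨m, h5.1, h5.2⟩)
    have h5 : q ≠ p := fun h => (h2 hq).2 (h ▸ hpb')
    have h6 : q ∈ U ∩ ((closure (EJ B J) \ EJ B J) \ {p}) :=
      ⟨hbU (h2 hq).1, ⟨h3 hq, h4⟩, h5⟩
    rw [hUR] at h6
    exact h6
  obtain ⟨M, hM⟩ := hT.bddAbove
  refine ⟨M + 1, fun k hk => ?_⟩
  by_contra hcon
  have h1 := hM ⟨(heS k).1, (heS k).2, hcon⟩
  have h2 : k ≤ e k := he.le_apply
  omega

theorem caseB {X : Type v} [TopologicalSpace X] [T2Space X]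
    (hco : ∀ F : Set X, IsClosed F → ∃ U : Set X, IsClopen U ∧ Nonempty (F ≃ₜ U))
    {j : E → X} (hj1 : Continuous j) (hj2 : Function.Injective j)
    {G : Set (Set E)} (hG : GF G) {Φ : Set E} (hΦG : Φ ∈ G) (hΦ : ¬ ConvIn G Φ) :
    ∃ y : (ℕ → Bool) → X, Function.Injective y ∧ (∀ f, y f ∈ kernel X) ∧
      ∀ f, ∃ V : Set X, IsOpen V ∧ y f ∈ V ∧ ∀ g, y g ∈ V → g = f := by
  classical
  obtain ⟨O, hO1, hO2, hO3⟩ := exists_disj hG hΦG
  obtain ⟨e, F, he, hF1, hF2, hF3⟩ := hG.null (fun n => Φ ∩ O n) O hO3 hO1 hO2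
    (fun n => inter_subset_right)
  have hBex : ∀ n, ∃ t : Finset E, (t : Set E) ⊆ F n ∧ t.card = 2 ^ n := fun n =>
    (crowded_infinite (hG.ne _ (hF1 n)) (hG.crowded _ (hF1 n))).exists_subset_card_eq (2 ^ n)
  choose B hB1 hB2 using hBex
  have S : Blk B (fun n => O (e n)) := ⟨fun n => (hO1 (e n)).isOpen,
    fun m n hmn => hO2 (he.ne hmn),
    fun n => (hB1 n).trans ((hF2 n).trans inter_subset_right), hB2, null_mono hF3 hB1⟩
  have hFΦ : ∀ n, F n ⊆ Φ := fun n => (hF2 n).trans inter_subset_left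
  have hp : ∀ f : ℕ → Bool, ∃ p, p ∈ closure (EJ B (adJ f)) ∧ p ∉ EJ B (adJ f) := fun f =>
    R_nonempty S (adJ_infinite f)
  choose p hp1 hp2 using hp
  have hh : ∀ J : Set ℕ, ∃ h : closure (EJ B J) → X, IsOpenEmbedding h := by
    intro J
    have hc : CompactSpace (closure (EJ B J)) :=
      isCompact_iff_compactSpace.1 isClosed_closure.isCompact
    have h3 : IsClosedEmbedding (j ∘ (Subtype.val : closure (EJ B J) → E)) :=
      (hj1.comp continuous_subtype_val).isClosedEmbedding (hj2.comp Subtype.val_injective)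
    obtain ⟨g, hg⟩ := copies hco (range (j ∘ (Subtype.val : closure (EJ B J) → E)))
      h3.isClosed_range
    exact ⟨g ∘ h3.isEmbedding.toHomeomorph, hg.comp h3.isEmbedding.toHomeomorph.isOpenEmbedding⟩
  choose h hh using hh
  have hsep : ∀ f g : ℕ → Bool, h (adJ g) ⟨p g, hp1 g⟩ ∈ range (h (adJ f)) → g = f := by
    intro f g hfg
    by_contra hne
    exact claim S hF1 hFΦ hB1 hF3 hΦ (J := fun s => cond s (adJ f) (adJ g))
      (h := fun s => h (cond s (adJ f) (adJ g))) (fun s => hh _) (adJ_fin hne) ⟨p g, hp1 g⟩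
      (hp2 g) hfg
  refine ⟨fun f => h (adJ f) ⟨p f, hp1 f⟩, fun f g hfg => ?_, fun f => ?_, fun f => ?_⟩
  · apply hsep
    exact ⟨⟨p g, hp1 g⟩, hfg.symm⟩
  · refine ⟨h (adJ f) '' (Subtype.val ⁻¹' (closure (EJ B (adJ f)) \ EJ B (adJ f))), ?_,
      ⟨⟨p f, hp1 f⟩, ⟨hp1 f, hp2 f⟩, rfl⟩⟩
    rintro _ ⟨q, hq, rfl⟩
    rw [mem_closure_iff]
    intro V hV hqV
    obtain ⟨U, hU, hU'⟩ := isOpen_induced_iff.1 (hV.preimage (hh (adJ f)).continuous)
    have hqU : (q : E) ∈ U := by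
      have h1 : q ∈ Subtype.val ⁻¹' U := by rw [hU']; exact hqV
      exact h1
    obtain ⟨z, hz, hz'⟩ := mem_closure_iff.1
      (R_crowded S hF1 hFΦ hB1 hF3 hΦ (adJ f) q hq) U hU hqU
    have h2 : (⟨z, hz'.1.1⟩ : closure (EJ B (adJ f))) ∈ Subtype.val ⁻¹' U := hz
    rw [hU'] at h2
    refine ⟨h (adJ f) ⟨z, hz'.1.1⟩, h2, ⟨⟨z, hz'.1.1⟩, hz'.1, rfl⟩, fun h3 => ?_⟩
    exact hz'.2 (congrArg Subtype.val ((hh (adJ f)).injective h3))
  · exact ⟨range (h (adJ f)), (hh (adJ f)).isOpen_range, mem_range_self _, fun g hg => hsep f g hg⟩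

end Pool.Agent.Lib.MP_77266e_gtP
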