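import Pool.Agent.Lib.MP_77266e_gtP.CaseB

/-!
# Families with null sequences give discrete sets of cardinality continuum
-/

namespace Pool.Agent.Lib.MP_77266e_gtP

open Set Topology Filter Cardinal
open Pool.Agent.Lib.MP_77266e_gt

universe u

theorem cluster {X : Type u} [TopologicalSpace X] [CompactSpace X] [T2Space X]
    (hco : ∀ F : Set X, IsClosed F → ∃ U : Set X, IsClopen U ∧ Nonempty (F ≃ₜ U))
    {E : Type u} [TopologicalSpace E] [CompactSpace E] [T2Space E] [TotallyDisconnectedSpace E]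
    {j : E → X} (hj1 : Continuous j) (hj2 : Function.Injective j)
    {G : Set (Set E)} (hG : GF G) {Φ₀ : Set E} (hΦ₀ : Φ₀ ∈ G) :
    ∃ D ⊆ kernel X, #D = 𝔠 ∧ ∀ x ∈ D, ∃ V : Set X, IsOpen V ∧ V ∩ D = {x} := by
  by_cases hA : ∀ Φ ∈ G, ConvIn G Φ
  · exact main_rich hco (rich_of_conv hG hA) hΦ₀ j hj1 hj2
  · push Not at hA
    obtain ⟨Φ, hΦG, hΦ⟩ := hA
    obtain ⟨y, h1, h2, h3⟩ := caseB hco hj1 hj2 hG hΦG hΦ
    refine ⟨range y, ?_, ?_, ?_⟩
    · rintro _ ⟨A, rfl⟩
      exact h2 A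
    · have e1 : range y = range (fun A : ULift.{u} (ℕ → Bool) => y A.down) := by
        ext x
        constructor
        · rintro ⟨A, rfl⟩; exact ⟨⟨A⟩, rfl⟩
        · rintro ⟨A, rfl⟩; exact ⟨A.down, rfl⟩
      have e2 : #(ℕ → Bool) = 𝔠 := by
        rw [Cardinal.mk_arrow, Cardinal.mk_bool, Cardinal.mk_nat, Cardinal.lift_aleph0,
          Cardinal.lift_ofNat, Cardinal.two_power_aleph0]
      rw [e1, Cardinal.mk_range_eq _ (fun A A' h => ULift.down_injective (h1 h)),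
        Cardinal.mk_uLift, e2, Cardinal.lift_continuum]
    · rintro _ ⟨A, rfl⟩
      obtain ⟨V, hV, hyV, h⟩ := h3 A
      refine ⟨V, hV, ?_⟩
      ext z
      constructor
      · rintro ⟨hz, A', rfl⟩
        rw [h A' hz]; exact mem_singleton _
      · rintro rfl
        exact ⟨hyV, A, rfl⟩

end Pool.Agent.Lib.MP_77266e_gtP
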