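import Pool.Agent.Lib.MP_77266e_gtP.Start
import Mathlib.Topology.Instances.CantorSet

/-!
# The space of connected components of a c.o. space
-/

namespace Pool.Agent.Lib.MP_77266e_gtP

open Set Topology Filter Cardinal
open Pool.Agent.Lib.MP_77266e_gt

universe u

section

variable {X : Type u} [TopologicalSpace X]

/-- the map to the space of components -/
abbrev qc (x : X) : ConnectedComponents X := ConnectedComponents.mk x

lemma qc_cont : Continuous (qc : X → ConnectedComponents X) := ConnectedComponents.continuous_coe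

lemma qc_surj : Function.Surjective (qc : X → ConnectedComponents X) :=
  ConnectedComponents.surjective_coe

lemma qc_quot : IsQuotientMap (qc : X → ConnectedComponents X) :=
  ConnectedComponents.isQuotientMap_coe

lemma qc_eq {x y : X} : qc x = qc y ↔ x ∈ connectedComponent y := ConnectedComponents.coe_eq_coe'

/-- points of a connected set are in the same component -/
lemma qc_eq_of_preconn {S : Set X} (hS : IsPreconnected S) {x y : X} (hx : x ∈ S) (hy : y ∈ S) :
    qc x = qc y :=
  qc_eq.2 (hS.subset_connectedComponent hy hx)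

lemma qc_sat {U : Set X} (hU : IsClopen U) {x y : X} (hxy : qc x = qc y) (hy : y ∈ U) : x ∈ U :=
  hU.connectedComponent_subset hy (qc_eq.1 hxy)

lemma qc_preimage {U : Set X} (hU : IsClopen U) : qc ⁻¹' (qc '' U) = U := by
  ext x
  constructor
  · rintro ⟨y, hy, hxy⟩
    exact qc_sat hU hxy.symm hy
  · intro hx
    exact ⟨x, hx, rfl⟩

lemma qc_clopen {U : Set X} (hU : IsClopen U) : IsClopen (qc '' U) := by
  refine ⟨qc_quot.isClosed_preimage.1 ?_, qc_quot.isOpen_preimage.1 ?_⟩
  · rw [qc_preimage hU]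
    exact hU.isClosed
  · rw [qc_preimage hU]
    exact hU.isOpen

lemma qc_move {P U : Set X} (e : P ≃ₜ U) {S : Set X} (hS : IsPreconnected S) (hSP : S ⊆ P)
    {a b : P} (ha : (a : X) ∈ S) (hb : (b : X) ∈ S) : qc (e a : X) = qc (e b : X) := by
  have h2 : IsPreconnected (Subtype.val ⁻¹' S : Set P) := by
    rw [← IsInducing.subtypeVal.isPreconnected_image, Subtype.image_preimage_coe,
      inter_eq_right.2 hSP]
    exact hS
  have h3 := (h2.image _ e.continuous.continuousOn).image _ continuous_subtype_val.continuousOn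
  exact qc_eq_of_preconn h3 ⟨e a, ⟨a, ha, rfl⟩, rfl⟩ ⟨e b, ⟨b, hb, rfl⟩, rfl⟩

/-- Homeomorphisms from a closed saturated set to a clopen set preserve components. -/
lemma qc_homeo {P : Set X} (hP : ∀ x y, qc x = qc y → y ∈ P → x ∈ P) {U : Set X} (hU : IsClopen U)
    (e : P ≃ₜ U) (a b : P) : qc (a : X) = qc (b : X) ↔ qc (e a : X) = qc (e b : X) := by
  constructor
  · intro h
    exact qc_move e isPreconnected_connectedComponent (fun z hz => hP z b (qc_eq.2 hz) b.2)
      (qc_eq.1 h) mem_connectedComponent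
  · intro h
    have h1 := qc_move e.symm (a := e a) (b := e b)
      (isPreconnected_connectedComponent (x := (e b : X)))
      (hU.connectedComponent_subset (e b).2) (qc_eq.1 h) mem_connectedComponent
    rwa [e.symm_apply_apply, e.symm_apply_apply] at h1

end

section

variable {X : Type u} [TopologicalSpace X] [CompactSpace X] [T2Space X]

/-- The space of components of a c.o. space is a c.o. space. -/
theorem comp_co (hco : ∀ F : Set X, IsClosed F → ∃ U : Set X, IsClopen U ∧ Nonempty (F ≃ₜ U)) :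
    ∀ F : Set (ConnectedComponents X), IsClosed F →
      ∃ U : Set (ConnectedComponents X), IsClopen U ∧ Nonempty (F ≃ₜ U) := by
  intro F hF
  have hPc : IsClosed (qc ⁻¹' F : Set X) := hF.preimage qc_cont
  obtain ⟨U, hU, ⟨e⟩⟩ := hco _ hPc
  have hP : ∀ x y : X, qc x = qc y → y ∈ (qc ⁻¹' F : Set X) → x ∈ (qc ⁻¹' F : Set X) := by
    intro x y hxy hy
    show qc x ∈ F
    rw [hxy]
    exact hy
  have cP : CompactSpace (qc ⁻¹' F : Set X) := isCompact_iff_compactSpace.1 hPc.isCompact
  have cF : CompactSpace F := isCompact_iff_compactSpace.1 hF.isCompact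
  -- the map from `P` to `F`
  obtain ⟨ρ, hρ⟩ : ∃ ρ : (qc ⁻¹' F : Set X) → F, ∀ a, ((ρ a : F) : ConnectedComponents X) =
      qc (a : X) := ⟨fun a => ⟨qc (a : X), a.2⟩, fun a => rfl⟩
  have hρc : Continuous ρ := by
    rw [continuous_induced_rng]
    have h1 : (Subtype.val ∘ ρ) = fun a : (qc ⁻¹' F : Set X) => qc (a : X) := funext hρ
    rw [h1]
    exact qc_cont.comp continuous_subtype_val
  have hρs : Function.Surjective ρ := by
    rintro ⟨y, hy⟩
    obtain ⟨x, rfl⟩ := qc_surj y
    exact ⟨⟨x, hy⟩, Subtype.ext (hρ _)⟩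
  have hρq : IsQuotientMap ρ := hρc.isClosedMap.isQuotientMap hρc hρs
  choose s hs using hρs
  obtain ⟨k, hk⟩ : ∃ k : F → ConnectedComponents X, k = fun y => qc (e (s y) : X) := ⟨_, rfl⟩
  have hkρ : ∀ a, k (ρ a) = qc (e a : X) := by
    intro a
    rw [hk]
    refine (qc_homeo hP hU e _ _).1 ?_
    rw [← hρ, ← hρ, hs]
  have hkc : Continuous k := by
    rw [hρq.continuous_iff]
    have h1 : k ∘ ρ = fun a => qc (e a : X) := funext hkρ
    rw [h1]
    exact qc_cont.comp (continuous_subtype_val.comp e.continuous)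
  have hki : Function.Injective k := by
    intro y z hyz
    rw [hk] at hyz
    have h1 := (qc_homeo hP hU e _ _).2 hyz
    rw [← hρ, ← hρ, hs, hs] at h1
    exact Subtype.ext h1
  have hkr : range k = qc '' U := by
    ext y
    constructor
    · rintro ⟨z, rfl⟩
      rw [hk]
      exact ⟨e (s z), (e (s z)).2, rfl⟩
    · rintro ⟨x, hx, rfl⟩
      refine ⟨ρ (e.symm ⟨x, hx⟩), ?_⟩
      rw [hkρ, e.apply_symm_apply]
  refine ⟨qc '' U, qc_clopen hU, ⟨?_⟩⟩
  exact (hkc.isClosedEmbedding hki).isEmbedding.toHomeomorph.trans (Homeomorph.setCongr hkr)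

/-- isolated points of the space of components -/
theorem comp_iso (hco : ∀ F : Set X, IsClosed F → ∃ U : Set X, IsClopen U ∧ Nonempty (F ≃ₜ U)) :
    #{y : ConnectedComponents X | IsOpen ({y} : Set (ConnectedComponents X))} ≤
      #{x : X | IsOpen ({x} : Set X)} := by
  choose s hs using (qc_surj : Function.Surjective (qc : X → ConnectedComponents X))
  obtain ⟨a, ha⟩ : ∃ a : {y : ConnectedComponents X | IsOpen ({y} : Set (ConnectedComponents X))} →
      X, a = fun y => s y.1 := ⟨_, rfl⟩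
  have ha' : ∀ y, qc (a y) = y.1 := fun y => by rw [ha]; exact hs _
  have hai : Function.Injective a := by
    intro y z hyz
    apply Subtype.ext
    rw [← ha', ← ha', hyz]
  rw [← mk_range_eq a hai]
  refine disc_le_iso hco (range a) ?_
  rintro _ ⟨y, rfl⟩
  refine ⟨qc ⁻¹' {y.1}, y.2.preimage qc_cont, ?_⟩
  ext x
  constructor
  · rintro ⟨h1, z, rfl⟩
    have h2 : qc (a z) = y.1 := h1
    rw [ha'] at h2
    rw [Subtype.ext h2]
    exact mem_singleton _
  · rintro rfl
    exact ⟨ha' y, y, rfl⟩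

/-- `𝒱` is a base of neighbourhoods of the set `L`. -/
def NBS (L : Set X) (𝒱 : Set (Set X)) : Prop :=
  (∀ V ∈ 𝒱, V ∈ 𝓝ˢ L) ∧ ∀ U ∈ 𝓝ˢ L, ∃ V ∈ 𝒱, V ⊆ U

lemma qc_nhds {x : X} {V : Set X} (hV : V ∈ 𝓝ˢ (connectedComponent x)) :
    ((qc '' (interior V)ᶜ)ᶜ : Set (ConnectedComponents X)) ∈ 𝓝 (qc x) := by
  have h1 : connectedComponent x ⊆ interior V := subset_interior_iff_mem_nhdsSet.2 hV
  have h2 : IsClosed (qc '' (interior V)ᶜ : Set (ConnectedComponents X)) :=
    (isOpen_interior.isClosed_compl.isCompact.image qc_cont).isClosed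
  refine h2.isOpen_compl.mem_nhds ?_
  rintro ⟨z, hz, hzx⟩
  exact hz (h1 (qc_eq.1 hzx))

lemma qc_nhds_sub {V : Set X} : (qc ⁻¹' ((qc '' (interior V)ᶜ)ᶜ) : Set X) ⊆ V := by
  intro z hz
  by_contra h
  exact hz ⟨z, fun h' => h (interior_subset h'), rfl⟩

lemma qc_nhds_pre {x : X} {W : Set (ConnectedComponents X)} (hW : W ∈ 𝓝 (qc x)) :
    (qc ⁻¹' W : Set X) ∈ 𝓝ˢ (connectedComponent x) := by
  rw [← subset_interior_iff_mem_nhdsSet]
  obtain ⟨O, hOW, hO, hxO⟩ := mem_nhds_iff.1 hW
  intro z hz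
  refine interior_maximal (preimage_mono hOW) (hO.preimage qc_cont) ?_
  show qc z ∈ O
  rw [qc_eq.2 hz]
  exact hxO

theorem comp_nb1 {x : X} {𝒱 : Set (Set (ConnectedComponents X))} (h : NB (qc x) 𝒱) :
    NBS (connectedComponent x) ((fun V => (qc ⁻¹' V : Set X)) '' 𝒱) := by
  refine ⟨?_, ?_⟩
  · rintro _ ⟨V, hV, rfl⟩
    exact qc_nhds_pre (h.1 V hV)
  · intro U hU
    obtain ⟨V, hV, hVU⟩ := h.2 _ (qc_nhds hU)
    exact ⟨_, ⟨V, hV, rfl⟩, (preimage_mono hVU).trans qc_nhds_sub⟩

theorem comp_nb2 {x : X} {𝒱 : Set (Set X)} (h : NBS (connectedComponent x) 𝒱) :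
    ∃ f : Set X → Set (ConnectedComponents X), NB (qc x) (f '' 𝒱) := by
  refine ⟨fun V => (qc '' (interior V)ᶜ)ᶜ, ?_, ?_⟩
  · rintro _ ⟨V, hV, rfl⟩
    exact qc_nhds (h.1 V hV)
  · intro U hU
    obtain ⟨V, hV, hVU⟩ := h.2 _ (qc_nhds_pre hU)
    refine ⟨_, ⟨V, hV, rfl⟩, ?_⟩
    intro y hy
    obtain ⟨z, rfl⟩ := qc_surj y
    exact hVU (qc_nhds_sub hy)

/-- A scattered compact space does not map onto the Cantor set. -/
lemma no_cantor (hX : Scat X) {F : Set X} (hF : IsClosed F) {π : F → ℕ → Bool}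
    (hπ : Continuous π) : ¬ Function.Surjective π := by
  intro hπ'
  have cF : CompactSpace F := isCompact_iff_compactSpace.1 hF.isCompact
  obtain ⟨E, cE, g, hg, hgs, hgi⟩ := exists_irr hπ hπ'
  have hcr := irr_crowded hg hgs hgi
  have hne : Nonempty E := ⟨(hgs fun _ => false).choose⟩
  obtain ⟨e₀⟩ := hne
  obtain ⟨x, ⟨e, rfl⟩, V, hV, hVS⟩ := hX (range fun e : E => (e.1 : X)) ⟨_, e₀, rfl⟩
  have h1 : (e.1 : X) ∈ V := by
    have h2 : (e.1 : X) ∈ V ∩ range fun e : E => (e.1 : X) := by
      rw [hVS]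
      exact mem_singleton _
    exact h2.1
  obtain ⟨e', he', hne'⟩ := hcr e ((fun e : E => (e.1 : X)) ⁻¹' V)
    (hV.preimage (continuous_subtype_val.comp continuous_subtype_val)) h1
  apply hne'
  have h3 : (e'.1 : X) ∈ V ∩ range fun e : E => (e.1 : X) := ⟨he', e', rfl⟩
  rw [hVS] at h3
  exact Subtype.ext (Subtype.ext h3)

/-- If the space of components of a c.o. space is scattered, then the space is scattered. -/
theorem comp_scat (hco : ∀ F : Set X, IsClosed F → ∃ U : Set X, IsClopen U ∧ Nonempty (F ≃ₜ U))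
    (hY : Scat (ConnectedComponents X)) : Scat X := by
  have hinj : Function.Injective (qc : X → ConnectedComponents X) := by
    intro x x' hxx
    by_contra hne
    obtain ⟨f, hf0, hf1, -⟩ := exists_continuous_zero_one_of_isClosed
      (isClosed_singleton (x := x)) (isClosed_singleton (x := x'))
      (Set.disjoint_left.2 fun z hz hz' => hne ((mem_singleton_iff.1 hz).symm.trans
        (mem_singleton_iff.1 hz')))
    have h0 : f x = 0 := hf0 (mem_singleton x)
    have h1 : f x' = 1 := hf1 (mem_singleton x')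
    have hon : ∀ t ∈ Icc (0 : ℝ) 1, ∃ z : X, f z = t := by
      intro t ht
      have h2 : IsPreconnected (f '' connectedComponent x') :=
        isPreconnected_connectedComponent.image _ f.continuous.continuousOn
      have h3 := h2.Icc_subset (a := 0) (b := 1) ⟨x, qc_eq.1 hxx, h0⟩
        ⟨x', mem_connectedComponent, h1⟩
      obtain ⟨z, -, hz⟩ := h3 ht
      exact ⟨z, hz⟩
    have hPc : IsClosed (f ⁻¹' cantorSet : Set X) := isClosed_cantorSet.preimage f.continuous
    obtain ⟨U, hU, ⟨e⟩⟩ := hco _ hPc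
    -- the map from `U` to the Cantor set
    obtain ⟨ψ, hψ⟩ : ∃ ψ : U → ℕ → Bool, ψ = fun u => cantorSetHomeomorphNatToBool
        ⟨f (e.symm u : X), (e.symm u).2⟩ := ⟨_, rfl⟩
    have hψc : Continuous ψ := by
      rw [hψ]
      refine cantorSetHomeomorphNatToBool.continuous.comp ?_
      exact (f.continuous.comp (continuous_subtype_val.comp e.symm.continuous)).subtype_mk _
    have hψs : Function.Surjective ψ := by
      intro c
      obtain ⟨z, hz⟩ := hon (cantorSetHomeomorphNatToBool.symm c)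
        (cantorSet_subset_unitInterval (cantorSetHomeomorphNatToBool.symm c).2)
      have hzP : z ∈ (f ⁻¹' cantorSet : Set X) := by
        show f z ∈ cantorSet
        rw [hz]
        exact (cantorSetHomeomorphNatToBool.symm c).2
      refine ⟨e ⟨z, hzP⟩, ?_⟩
      rw [hψ]
      show cantorSetHomeomorphNatToBool ⟨f (e.symm (e ⟨z, hzP⟩) : X), _⟩ = c
      have h4 : (⟨f (e.symm (e ⟨z, hzP⟩) : X), (e.symm (e ⟨z, hzP⟩)).2⟩ : cantorSet) =
          cantorSetHomeomorphNatToBool.symm c := by
        apply Subtype.ext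
        show f (e.symm (e ⟨z, hzP⟩) : X) = _
        rw [e.symm_apply_apply]
        exact hz
      rw [h4, Homeomorph.apply_symm_apply]
    have hψe : ∀ u v : U, qc (u : X) = qc (v : X) → ψ u = ψ v := by
      intro u v huv
      have h2 : IsPreconnected (Subtype.val ⁻¹' connectedComponent (v : X) : Set U) := by
        rw [← IsInducing.subtypeVal.isPreconnected_image, Subtype.image_preimage_coe,
          inter_eq_right.2 (hU.connectedComponent_subset v.2)]
        exact isPreconnected_connectedComponent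
      have h3 := h2.image _ hψc.continuousOn
      exact h3.subsingleton ⟨u, qc_eq.1 huv, rfl⟩ ⟨v, mem_connectedComponent, rfl⟩
    -- descend to the components
    have hVc : IsClosed (qc '' U : Set (ConnectedComponents X)) := (qc_clopen hU).isClosed
    have cU : CompactSpace U := isCompact_iff_compactSpace.1 hU.isClosed.isCompact
    obtain ⟨ρ, hρ⟩ : ∃ ρ : U → (qc '' U : Set (ConnectedComponents X)),
        ∀ a, ((ρ a : (qc '' U : Set (ConnectedComponents X))) : ConnectedComponents X) =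
          qc (a : X) := ⟨fun a => ⟨qc (a : X), a, a.2, rfl⟩, fun a => rfl⟩
    have hρc : Continuous ρ := by
      rw [continuous_induced_rng]
      have h1 : (Subtype.val ∘ ρ) = fun a : U => qc (a : X) := funext hρ
      rw [h1]
      exact qc_cont.comp continuous_subtype_val
    have hρs : Function.Surjective ρ := by
      rintro ⟨y, z, hz, rfl⟩
      exact ⟨⟨z, hz⟩, Subtype.ext (hρ _)⟩
    have hρq : IsQuotientMap ρ := hρc.isClosedMap.isQuotientMap hρc hρs
    choose s hs using hρs
    refine no_cantor hY hVc (π := fun y => ψ (s y)) ?_ ?_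
    · rw [hρq.continuous_iff]
      have h1 : (fun y => ψ (s y)) ∘ ρ = ψ := by
        funext a
        refine hψe _ _ ?_
        rw [← hρ, ← hρ, hs]
      rw [h1]
      exact hψc
    · intro c
      obtain ⟨u, hu⟩ := hψs c
      refine ⟨ρ u, ?_⟩
      rw [← hu]
      refine hψe _ _ ?_
      rw [← hρ, ← hρ, hs]
  intro S hS
  obtain ⟨x₀, hx₀⟩ := hS
  obtain ⟨y, ⟨x, hx, rfl⟩, V, hV, hVS⟩ := hY (qc '' S) ⟨_, x₀, hx₀, rfl⟩
  refine ⟨x, hx, qc ⁻¹' V, hV.preimage qc_cont, ?_⟩
  ext z
  constructor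
  · rintro ⟨hz, hz'⟩
    have h1 : qc z ∈ V ∩ qc '' S := ⟨hz, z, hz', rfl⟩
    rw [hVS] at h1
    exact hinj h1
  · rintro rfl
    have h1 : qc z ∈ V ∩ qc '' S := by
      rw [hVS]
      exact mem_singleton _
    exact ⟨h1.1, hx⟩

end

end Pool.Agent.Lib.MP_77266e_gtP
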