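import Pool.Agent.Lib.MP_77266e_gtP.GF

/-!
# Rich families of sets

`Rich G`: every member of the family `G` contains two disjoint members, a crowded compact space, and a
disjoint sequence of members which converges to a point of it. In a c.o. space such a family gives a
relatively discrete set of cardinality continuum in the kernel (`main_rich`). The proof is the one of
`Pool.Agent.Lib.MP_77266e_gt.Main`, where `G` is the family of nonempty open sets.
-/

namespace Pool.Agent.Lib.MP_77266e_gtP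

open Set Topology Filter Cardinal
open Pool.Agent.Lib.MP_77266e_gt

universe u v w

/-- Every member of `G` contains a compact space with the property `Q`. -/
def GEv {C : Type u} [TopologicalSpace C] (G : Set (Set C))
    (Q : (Z : Type u) → [TopologicalSpace Z] → Prop) : Prop :=
  ∀ O ∈ G, ∃ (Z : Type u) (_ : TopologicalSpace Z)
    (_ : CompactSpace Z) (f : Z → C), IsEmbedding f ∧ range f ⊆ O ∧ Q Z

/-- Rich families. -/
structure Rich {C : Type u} [TopologicalSpace C] (G : Set (Set C)) : Prop where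
  two : ∀ O ∈ G, ∃ P ∈ G, ∃ R ∈ G, P ⊆ O ∧ R ⊆ O ∧ Disjoint P R
  crowded : GEv G (fun Z _ => Nonempty Z ∧ Crowded Z)
  seq : ∀ O ∈ G, ∃ y ∈ O, ∃ W : ℕ → Set C, (∀ n, W n ∈ G) ∧ (∀ n, W n ⊆ O) ∧
    (∀ n, y ∉ W n) ∧ (Pairwise fun m n => Disjoint (W m) (W n)) ∧
    ∀ V : Set C, IsOpen V → y ∈ V → ∃ N, ∀ n, N ≤ n → W n ⊆ V

section fam

variable {C : Type u} [TopologicalSpace C] [T2Space C] {G : Set (Set C)}

/-- the sum of two spaces -/
lemma GEv.sum (hG : Rich G) {Q Q' Q'' : (Z : Type u) → [TopologicalSpace Z] → Prop}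
    (h : GEv G Q) (h' : GEv G Q')
    (H : ∀ (Z Z' : Type u) [TopologicalSpace Z] [TopologicalSpace Z'], Q Z → Q' Z' → Q'' (Z ⊕ Z')) :
    GEv G Q'' := by
  rintro O hO
  obtain ⟨P, hP, R, hR, hPO, hRO, hPR⟩ := hG.two O hO
  obtain ⟨Z, tZ, cZ, f, hf, hfr, hZ⟩ := h P hP
  obtain ⟨Z', tZ', cZ', g, hg, hgr, hZ'⟩ := h' R hR
  refine ⟨Z ⊕ Z', inferInstance, inferInstance, Sum.elim f g, emb_of_continuous_injective
    (continuous_sum_dom.2 ⟨hf.continuous, hg.continuous⟩) ?_, ?_, H Z Z' hZ hZ'⟩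
  · refine hf.injective.sumElim hg.injective fun a b hab => ?_
    have e1 := hfr (mem_range_self a)
    have e2 := hgr (mem_range_self b)
    rw [hab] at e1
    exact hPR.le_bot ⟨e1, e2⟩
  · rintro _ ⟨a | b, rfl⟩
    · exact hPO (hfr (mem_range_self a))
    · exact hRO (hgr (mem_range_self b))

/-- the one-point compactification of a countable sum -/
lemma GEv.wedge (hG : Rich G)
    {Q : ℕ → (Z : Type u) → [TopologicalSpace Z] → Prop}
    {Q' : (Z : Type u) → [TopologicalSpace Z] → Prop} (h : ∀ n, GEv G (Q n))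
    (H : ∀ (Z : ℕ → Type u) [∀ n, TopologicalSpace (Z n)], (∀ n, Q n (Z n)) →
      Q' (OnePoint (Σ n, Z n))) : GEv G Q' := by
  intro O hO
  obtain ⟨y, hy, W, hW1, hW3, hW4, hW5, hW6⟩ := hG.seq O hO
  choose Z tZ cZ f hf hfr hQ using fun n => h n (W n) (hW1 n)
  let g : OnePoint (Σ n, Z n) → C := fun s => Option.elim s y (fun s => f s.1 s.2)
  have g1 : ∀ s : (Σ n, Z n), g (s : OnePoint (Σ n, Z n)) = f s.1 s.2 := fun s => rfl
  have g0 : g OnePoint.infty = y := rfl
  refine ⟨OnePoint (Σ n, Z n), inferInstance, inferInstance, g,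
    emb_of_continuous_injective ?_ ?_, ?_, H Z hQ⟩
  · rw [OnePoint.continuous_iff]
    constructor
    · rw [g0]
      intro V hV
      obtain ⟨V', hV'V, hV'o, hyV'⟩ := mem_nhds_iff.1 hV
      obtain ⟨N, hN⟩ := hW6 V' hV'o hyV'
      rw [Filter.mem_map, Filter.hasBasis_coclosedCompact.mem_iff]
      refine ⟨⋃ n ∈ Finset.range N, Sigma.mk n '' univ, ⟨?_, ?_⟩, ?_⟩
      · refine isClosed_biUnion_finset fun n _ => ?_
        exact isClosedMap_sigmaMk _ isClosed_univ
      · refine (Finset.range N).isCompact_biUnion fun n _ => ?_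
        exact isCompact_univ.image continuous_sigmaMk
      · rintro ⟨n, z⟩ hs
        by_cases hn : n < N
        · exfalso
          apply hs
          simp only [mem_iUnion]
          exact ⟨n, Finset.mem_range.2 hn, z, mem_univ _, rfl⟩
        · apply hV'V
          apply hN n (not_lt.1 hn)
          exact hfr n (mem_range_self z)
    · exact continuous_sigma fun n => (hf n).continuous
  · intro s t hst
    induction s using OnePoint.rec with
    | infty =>
      induction t using OnePoint.rec with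
      | infty => rfl
      | coe t =>
        exfalso
        rw [g0, g1] at hst
        exact hW4 _ (hst ▸ hfr t.1 (mem_range_self t.2))
    | coe s =>
      induction t using OnePoint.rec with
      | infty =>
        exfalso
        rw [g0, g1] at hst
        exact hW4 _ (hst ▸ hfr s.1 (mem_range_self s.2))
      | coe t =>
        rw [g1, g1] at hst
        obtain ⟨n, a⟩ := s
        obtain ⟨m, b⟩ := t
        by_cases hnm : n = m
        · subst hnm
          have e4 : a = b := (hf n).injective hst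
          rw [e4]
        · exfalso
          have e1 := hfr n (mem_range_self a)
          have e2 := hfr m (mem_range_self b)
          have e3 : f n a = f m b := hst
          rw [e3] at e1
          exact (hW5 hnm).le_bot ⟨e1, e2⟩
  · rintro _ ⟨s, rfl⟩
    induction s using OnePoint.rec with
    | infty => exact hy
    | coe s => exact hW3 _ (hfr s.1 (mem_range_self s.2))

/-- points -/
lemma GEv.punit (hG : Rich G) {Q : (Z : Type u) → [TopologicalSpace Z] → Prop}
    (h : Q PUnit) : GEv G Q := by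
  rintro O hO
  obtain ⟨x, hx, -⟩ := hG.seq O hO
  refine ⟨PUnit, inferInstance, inferInstance, fun _ => x, ?_, ?_, h⟩
  · exact emb_of_continuous_injective continuous_const fun a b _ => rfl
  · rintro _ ⟨_, rfl⟩; exact hx

/-- compact spaces with one point of rank `n` and all other points of smaller rank -/
lemma gexists_rank (hG : Rich G) (n : ℕ) :
    GEv G (fun Z _ => ∃ p : Z, (∀ z, z ≠ p → z ∈ sc Z n) ∧ p ∉ sc Z n) := by
  induction n with
  | zero => exact GEv.punit hG ⟨PUnit.unit, fun z hz => (hz rfl).elim, fun h => h⟩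
  | succ n ih =>
    refine GEv.wedge hG (fun _ => ih) ?_
    intro Z _ hZ
    choose p h2 h3 using hZ
    have hall : ∀ k (z : Z k), z ∈ sc (Z k) (n + 1) := by
      intro k z
      by_cases hz : z = p k
      · refine ⟨univ, isOpen_univ, mem_univ _, fun w _ => ?_⟩
        by_cases hw : w = z
        · exact Or.inl hw
        · exact Or.inr (h2 k w (fun h => hw (h.trans hz.symm)))
      · exact sc_subset_succ n (h2 k z hz)
    refine ⟨OnePoint.infty, ?_, ?_⟩
    · intro s hs
      obtain ⟨k, z, rfl⟩ := eq_inc hs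
      have h4 : inc k z ∈ sc (OnePoint (Σ k, Z k)) (n + 1) ↔ z ∈ sc (Z k) (n + 1) := by
        rw [← preimage_sc (inc_open (Z := Z) k)]; rfl
      exact h4.2 (hall k z)
    · rintro ⟨V, hV, hx, h⟩
      obtain ⟨N, hN⟩ := tail hV hx
      have h4 := h (hN N le_rfl (p N))
      rcases h4 with h5 | h5
      · exact inc_ne _ _ h5
      · apply h3 N
        rw [← preimage_sc (inc_open (Z := Z) N)]
        exact h5

/-- sums of a crowded space and a space of a given rank -/
lemma gexists_S (hG : Rich G) (n : ℕ) :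
    GEv G (fun Z _ => (∃ c : Z, c ∈ cr Z) ∧ (∃ p : Z, p ∈ sc Z (n + 1) ∧ p ∉ sc Z n) ∧
      ∀ z : Z, z ∈ cr Z ∪ sc Z (n + 1)) := by
  refine GEv.sum hG hG.crowded (gexists_rank hG n) ?_
  rintro Z Z' _ _ ⟨⟨c⟩, hc⟩ ⟨p, h2, h3⟩
  have hall : ∀ z : Z', z ∈ sc Z' (n + 1) := by
    intro z
    by_cases hz : z = p
    · refine ⟨univ, isOpen_univ, mem_univ _, fun w _ => ?_⟩
      by_cases hw : w = z
      · exact Or.inl hw
      · exact Or.inr (h2 w (fun h => hw (h.trans hz.symm)))
    · exact sc_subset_succ n (h2 z hz)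
  have hl : IsOpenEmbedding (Sum.inl : Z → Z ⊕ Z') := Topology.IsOpenEmbedding.inl
  have hr : IsOpenEmbedding (Sum.inr : Z' → Z ⊕ Z') := Topology.IsOpenEmbedding.inr
  have hlc : ∀ z : Z, (Sum.inl z : Z ⊕ Z') ∈ cr (Z ⊕ Z') := by
    intro z
    have h4 := crowded_cr hc z
    rw [← preimage_cr hl] at h4
    exact h4
  have hrs : ∀ (z : Z') m, (Sum.inr z : Z ⊕ Z') ∈ sc (Z ⊕ Z') m ↔ z ∈ sc Z' m := by
    intro z m
    rw [← preimage_sc hr m]
    rfl
  refine ⟨⟨Sum.inl c, hlc c⟩, ⟨Sum.inr p, (hrs p _).2 (hall p), fun h => h3 ((hrs p _).1 h)⟩, ?_⟩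
  rintro (z | z)
  · exact Or.inl (hlc z)
  · exact Or.inr ((hrs z _).2 (hall z))

/-- compact spaces with one special point of a given kind -/
lemma gexists_B (hG : Rich G) (n : ℕ) :
    GEv G (fun Z _ => ∃ p : Z, (∀ z, z ≠ p → z ∈ cr Z ∪ sc Z (n + 1)) ∧ p ∈ qq Z n) := by
  refine GEv.wedge hG (fun _ => gexists_S hG n) ?_
  intro Z _ hZ
  choose h1 h2 h3 using hZ
  choose c hc using h1
  choose p hp hp' using h2
  have hcr : ∀ k (z : Z k), inc k z ∈ cr (OnePoint (Σ k, Z k)) ↔ z ∈ cr (Z k) := by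
    intro k z
    rw [← preimage_cr (inc_open (Z := Z) k)]
    rfl
  have hsc : ∀ k (z : Z k) m, inc k z ∈ sc (OnePoint (Σ k, Z k)) m ↔ z ∈ sc (Z k) m := by
    intro k z m
    rw [← preimage_sc (inc_open (Z := Z) k) m]
    rfl
  have hmem : ∀ s : OnePoint (Σ k, Z k), s ≠ OnePoint.infty →
      s ∈ cr (OnePoint (Σ k, Z k)) ∪ sc (OnePoint (Σ k, Z k)) (n + 1) := by
    intro s hs
    obtain ⟨k, z, rfl⟩ := eq_inc hs
    rcases h3 k z with h | h
    · exact Or.inl ((hcr k z).2 h)
    · exact Or.inr ((hsc k z _).2 h)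
  refine ⟨OnePoint.infty, hmem, ?_, ?_, ?_⟩
  · rw [mem_closure_iff]
    intro V hV hx
    obtain ⟨N, hN⟩ := tail hV hx
    exact ⟨_, hN N le_rfl (c N), (hcr _ _).2 (hc N)⟩
  · rw [mem_closure_iff]
    intro V hV hx
    obtain ⟨N, hN⟩ := tail hV hx
    exact ⟨_, hN N le_rfl (p N), (hsc _ _ _).2 (hp N), fun h => hp' N ((hsc _ _ _).1 h)⟩
  · refine ⟨univ, isOpen_univ, mem_univ _, fun s _ => ?_⟩
    by_cases hs : s = OnePoint.infty
    · exact Or.inl hs
    · exact Or.inr (hmem s hs)

/-- compact spaces with a point coding `A` -/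
lemma gexists_good (hG : Rich G) (A : Set ℕ) (hA : A.Nonempty) :
    GEv G (fun Z _ => ∃ y : Z, good Z A y) := by
  classical
  obtain ⟨n0, hn0⟩ := hA
  let a : ℕ → ℕ := fun k => if (Nat.unpair k).1 ∈ A then (Nat.unpair k).1 else n0
  have ha : ∀ k, a k ∈ A := fun k => by
    by_cases h : (Nat.unpair k).1 ∈ A
    · simp only [a, h, if_true]
    · simp only [a, h, if_false]; exact hn0
  have ha2 : ∀ n ∈ A, ∀ N, ∃ k, N ≤ k ∧ a k = n := by
    intro n hn N
    refine ⟨Nat.pair n N, Nat.right_le_pair _ _, ?_⟩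
    simp only [a, Nat.unpair_pair, hn, if_true]
  refine GEv.wedge hG (fun k => gexists_B hG (a k)) ?_
  intro B _ hB
  choose p hB2 hB3 using hB
  have hp : ∀ k, inc (Z := B) k (p k) ∈ qq (OnePoint (Σ k, B k)) (a k) := by
    intro k
    have h4 := hB3 k
    rw [← preimage_qq (inc_open (Z := B) k)] at h4
    exact h4
  -- special points of a summand
  have hsp : ∀ k (b : B k) m, b ∈ qq (B k) m → b = p k ∧ m = a k := by
    intro k b m hb
    have h1 : b = p k := by
      by_contra hne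
      rcases hB2 k b hne with h1 | h1
      · exact qq_notMem_cr hb h1
      · exact qq_notMem_sc hb _ h1
    refine ⟨h1, ?_⟩
    rw [h1] at hb
    exact qq_excl hb (hB3 k)
  refine ⟨OnePoint.infty, fun n => ⟨?_, ?_⟩, univ, isOpen_univ, mem_univ _, ?_⟩
  · intro h
    obtain ⟨s, -, hs1, hs2⟩ := mem_closure_iff.1 h univ isOpen_univ (mem_univ _)
    obtain ⟨k, b, rfl⟩ := eq_inc hs2
    have h4 : b ∈ qq (B k) n := by
      rw [← preimage_qq (inc_open (Z := B) k)]
      exact hs1
    rw [(hsp k b n h4).2]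
    exact ha k
  · intro hn
    rw [mem_closure_iff]
    intro V hV hx
    obtain ⟨N, hN⟩ := tail hV hx
    obtain ⟨k, hk, hak⟩ := ha2 n hn N
    exact ⟨_, hN k hk (p k), qq_congr hak (hp k), inc_ne _ _⟩
  · intro s _ hs
    obtain ⟨k, b, rfl⟩ := eq_inc hs
    rw [mem_closure_emb (inc_open (Z := B) k), preimage_sdiff, preimage_iUnion]
    have e0 : inc (Z := B) k ⁻¹' {inc (Z := B) k b} = {b} := by
      ext w
      simp [(inc_open (Z := B) k).injective.eq_iff]
    have e1 : (⋃ n, inc (Z := B) k ⁻¹' (qq (OnePoint (Σ k, B k)) n)) ⊆ {p k} := by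
      intro w hw
      obtain ⟨m, hm⟩ := mem_iUnion.1 hw
      rw [preimage_qq (inc_open (Z := B) k)] at hm
      exact (hsp k w m hm).1
    rw [e0]
    by_cases hb : b = p k
    · intro hcl
      obtain ⟨w, -, hw1, hw2⟩ := mem_closure_iff.1 hcl univ isOpen_univ (mem_univ _)
      exact hw2 ((e1 hw1).trans hb.symm)
    · intro hcl
      obtain ⟨w, hw, hw1, -⟩ := mem_closure_iff.1 hcl _
        (isOpen_cr.union (isOpen_sc (a k + 1))) (hB2 k b hb)
      have h5 : w = p k := e1 hw1
      rw [h5] at hw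
      rcases hw with h6 | h6
      · exact qq_notMem_cr (hB3 k) h6
      · exact qq_notMem_sc (hB3 k) _ h6

end fam

section main

variable {X : Type u} [TopologicalSpace X] [CompactSpace X] [T2Space X]

/-- The main construction. -/
theorem gmain_disc
    (hco : ∀ F : Set X, IsClosed F → ∃ U : Set X, IsClopen U ∧ Nonempty (F ≃ₜ U))
    {C : Type u} [TopologicalSpace C] [CompactSpace C] [T2Space C] {G : Set (Set C)}
    (hG : Rich G) {O : Set C} (hO : O ∈ G) (j : C → X) (hj1 : Continuous j)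
    (hj2 : Function.Injective j) :
    ∃ y : Set ℕ → X, Function.Injective y ∧ (∀ A, y A ∈ closure (cr X)) ∧
      ∀ A, ∃ V : Set X, IsOpen V ∧ y A ∈ V ∧ ∀ A', y A' ∈ V → A' = A := by
  classical
  have hy : ∀ A : Set ℕ, A.Nonempty → ∃ y : X, good X A y := by
    intro A hA
    obtain ⟨Z, tZ, cZ, f, hf, -, y, h2⟩ := gexists_good hG A hA O hO
    have h3 : IsClosedEmbedding (j ∘ f) :=
      (hj1.comp hf.continuous).isClosedEmbedding (hj2.comp hf.injective)
    obtain ⟨g, hg⟩ := copies hco (range (j ∘ f)) h3.isClosed_range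
    have h4 : IsOpenEmbedding (g ∘ h3.isEmbedding.toHomeomorph) :=
      hg.comp h3.isEmbedding.toHomeomorph.isOpenEmbedding
    exact ⟨_, good_emb h4 h2⟩
  choose y0 hy0 using fun A : {A : Set ℕ // A.Nonempty} => hy A.1 A.2
  have hinj0 : Function.Injective y0 := by
    intro A A' h
    apply Subtype.ext
    ext n
    rw [← (hy0 A).1 n, ← (hy0 A').1 n, h]
  let c : Set ℕ → {A : Set ℕ // A.Nonempty} := fun A =>
    ⟨insert 0 (Nat.succ '' A), insert_nonempty _ _⟩
  have hc : Function.Injective c := by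
    intro A A' h
    have h3 : insert 0 (Nat.succ '' A) = insert 0 (Nat.succ '' A') := congrArg Subtype.val h
    ext n
    have h4 : n + 1 ∈ insert 0 (Nat.succ '' A) ↔ n + 1 ∈ insert 0 (Nat.succ '' A') := by rw [h3]
    simpa using h4
  refine ⟨fun A => y0 (c A), hinj0.comp hc, fun A => ?_, fun A => ?_⟩
  · have h1 : (0 : ℕ) ∈ (c A).1 := mem_insert _ _
    have h2 := ((hy0 (c A)).1 0).2 h1
    have h3 : qq X 0 \ {y0 (c A)} ⊆ closure (cr X) := fun z hz => hz.1.1
    exact closure_minimal h3 isClosed_closure h2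
  · obtain ⟨V, hV, hyV, h⟩ := (hy0 (c A)).2
    refine ⟨V, hV, hyV, fun A' hA' => ?_⟩
    by_contra hne
    have h1 : y0 (c A') ≠ y0 (c A) := fun h' => hne (hc (hinj0 h'))
    apply h _ hA' h1
    have h2 : (0 : ℕ) ∈ (c A').1 := mem_insert _ _
    exact closure_mono (sdiff_subset_sdiff_left (subset_iUnion (fun n => qq X n) 0))
      (((hy0 (c A')).1 0).2 h2)

/-- The main theorem in terms of cardinalities. -/
theorem main_rich
    (hco : ∀ F : Set X, IsClosed F → ∃ U : Set X, IsClopen U ∧ Nonempty (F ≃ₜ U))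
    {C : Type u} [TopologicalSpace C] [CompactSpace C] [T2Space C] {G : Set (Set C)}
    (hG : Rich G) {O : Set C} (hO : O ∈ G) (j : C → X) (hj1 : Continuous j)
    (hj2 : Function.Injective j) :
    ∃ D ⊆ kernel X, #D = 𝔠 ∧ ∀ x ∈ D, ∃ V : Set X, IsOpen V ∧ V ∩ D = {x} := by
  obtain ⟨y, h1, h2, h3⟩ := gmain_disc hco hG hO j hj1 hj2
  refine ⟨range y, ?_, ?_, ?_⟩
  · rintro _ ⟨A, rfl⟩
    exact closure_cr_subset (h2 A)
  · have e1 : range y = range (fun A : ULift.{u} (Set ℕ) => y A.down) := by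
      ext x
      constructor
      · rintro ⟨A, rfl⟩; exact ⟨⟨A⟩, rfl⟩
      · rintro ⟨A, rfl⟩; exact ⟨A.down, rfl⟩
    rw [e1, Cardinal.mk_range_eq _ (fun A A' h => ULift.down_injective (h1 h)),
      Cardinal.mk_uLift, Cardinal.mk_set, Cardinal.mk_nat, Cardinal.two_power_aleph0,
      Cardinal.lift_continuum]
  · rintro _ ⟨A, rfl⟩
    obtain ⟨V, hV, hyV, h⟩ := h3 A
    refine ⟨V, hV, ?_⟩
    ext z
    constructor
    · rintro ⟨hz, A', rfl⟩
      rw [h A' hz]; exact mem_singleton _
    · rintro rfl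
      exact ⟨hyV, A, rfl⟩

end main

end Pool.Agent.Lib.MP_77266e_gtP
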