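import Pool.Agent.Lib.MP_77266e_gtP.Tree
import Pool.Agent.Lib.MP_77266e_gtP.Cluster

/-!
# Totally disconnected c.o. spaces with few isolated points
-/

namespace Pool.Agent.Lib.MP_77266e_gtP

open Set Topology Filter Cardinal
open Pool.Agent.Lib.MP_77266e_gt

universe u

theorem final_td {X : Type u} [TopologicalSpace X] [CompactSpace X] [T2Space X]
    [TotallyDisconnectedSpace X]
    (hco : ∀ F : Set X, IsClosed F → ∃ U : Set X, IsClopen U ∧ Nonempty (F ≃ₜ U))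
    {κ : Cardinal.{u}} (hunc : ℵ₀ < κ) (hκc : κ ≤ 𝔠)
    (hκ : κ = 𝔠 ∨ κ.IsRegular ∧ ∀ μ < κ, (2 : Cardinal.{u}) ^ μ < 2 ^ κ)
    (hiso : #{x : X | IsOpen ({x} : Set X)} < κ) (hX : ¬ Scat X) :
    ∃ x : X, (∃ 𝒱 : Set (Set X), NB x 𝒱 ∧ #𝒱 < κ) ∧ ∀ 𝒱 : Set (Set X), NB x 𝒱 → ¬ PI 𝒱 := by
  by_contra hcon
  push Not at hcon
  have hch : ∀ x : X, (∃ 𝒱 : Set (Set X), NB x 𝒱 ∧ PI 𝒱) ∨
      ∀ 𝒱 : Set (Set X), NB x 𝒱 → κ ≤ #𝒱 := by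
    intro x
    by_cases h : ∃ 𝒱 : Set (Set X), NB x 𝒱 ∧ #𝒱 < κ
    · exact Or.inl (hcon x h)
    · right
      intro 𝒱 h𝒱
      by_contra h'
      exact h ⟨𝒱, h𝒱, not_le.1 h'⟩
  have hD : ∀ D : Set X, (∀ x ∈ D, ∃ V : Set X, IsOpen V ∧ V ∩ D = {x}) → #D ≠ 𝔠 := by
    intro D hD h
    have h1 := disc_le_iso hco D hD
    rw [h] at h1
    exact absurd (h1.trans_lt hiso) (not_lt.2 hκc)
  obtain ⟨E, tE, cE, t2E, tdE, j, ⟨e₀⟩, hj, hj', hE⟩ :=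
    start hco hch (fun D _ h => hD D h) hX
  have hG : GF {F : Set E | GC κ F} := by
    rcases hκ with rfl | ⟨hreg, hpow⟩
    · exact GC_GF hco hiso.le (fun ⟨D, _, h1, h2⟩ => hD D h2 h1) j hj hj' hE
    · exact GC_GF_tree hco hreg hunc hκc hpow hiso j hj hj' hE
  obtain ⟨D, -, h1, h2⟩ := cluster hco hj hj' hG
    (show (Set.univ : Set E) ∈ {F : Set E | GC κ F} from
      GC.of_clopen hunc.le isClopen_univ ⟨e₀, mem_univ _⟩)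
  exact hD D h2 h1

end Pool.Agent.Lib.MP_77266e_gtP
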