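import Pool.Agent.Lib.MP_77266e_gt.Main

/-!
# Families of closed sets with null sequences (interface)

`GF G`: `G` is a family of nonempty closed crowded subsets of `E`, closed under nonempty
intersections with clopen sets, in which null sequences exist.
-/

namespace Pool.Agent.Lib.MP_77266e_gtP

open Set Topology Filter Cardinal

universe u

/-- Every clopen set cuts only finitely many members of the sequence. -/
def Null {E : Type u} [TopologicalSpace E] (F : ℕ → Set E) : Prop :=
  ∀ b : Set E, IsClopen b → {n | (F n ∩ b).Nonempty ∧ ¬ F n ⊆ b}.Finite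

structure GF {E : Type u} [TopologicalSpace E] (G : Set (Set E)) : Prop where
  ne : ∀ F ∈ G, F.Nonempty
  closed : ∀ F ∈ G, IsClosed F
  inter : ∀ F ∈ G, ∀ b : Set E, IsClopen b → (F ∩ b).Nonempty → F ∩ b ∈ G
  crowded : ∀ F ∈ G, ∀ x ∈ F, x ∈ closure (F \ {x})
  null : ∀ Φ O : ℕ → Set E, (∀ n, Φ n ∈ G) → (∀ n, IsClopen (O n)) →
    (Pairwise fun m n => Disjoint (O m) (O n)) → (∀ n, Φ n ⊆ O n) →
    ∃ (e : ℕ → ℕ) (F : ℕ → Set E), Function.Injective e ∧ (∀ n, F n ∈ G) ∧
      (∀ n, F n ⊆ Φ (e n)) ∧ Null F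

end Pool.Agent.Lib.MP_77266e_gtP
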