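import Pool.Agent.Lib.MP_77266e_gtP.Start

/-!
# Null sequences of intersections of few clopen sets

`rec_choice`: a recursion of length continuum. `exists_null`: in a compact space embedded in a
c.o. space without large discrete sets, disjoint sequences of intersections of few clopen sets can
be shrunk to sequences such that every clopen set cuts only finitely many members.
-/

namespace Pool.Agent.Lib.MP_77266e_gtP

open Set Topology Filter Cardinal
open Pool.Agent.Lib.MP_77266e_gt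

universe u

/-- nonempty intersections of fewer than `κ` clopen sets -/
def GC (κ : Cardinal.{u}) {E : Type u} [TopologicalSpace E] (F : Set E) : Prop :=
  F.Nonempty ∧ ∃ 𝒰 : Set (Set E), (∀ U ∈ 𝒰, IsClopen U) ∧ #𝒰 < κ ∧ F = ⋂₀ 𝒰

/-- a relatively discrete set of cardinality continuum in the kernel -/
def Big (X : Type u) [TopologicalSpace X] : Prop :=
  ∃ D ⊆ kernel X, #D = 𝔠 ∧ ∀ x ∈ D, ∃ V : Set X, IsOpen V ∧ V ∩ D = {x}

section gc

variable {E : Type u} [TopologicalSpace E] {κ : Cardinal.{u}}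

lemma GC.isClosed {F : Set E} (hF : GC κ F) : IsClosed F := by
  obtain ⟨-, 𝒰, h1, -, rfl⟩ := hF
  exact isClosed_sInter fun U hU => (h1 U hU).1

lemma GC.of_clopen (hκ : ℵ₀ ≤ κ) {F : Set E} (hF : IsClopen F) (hne : F.Nonempty) : GC κ F :=
  ⟨hne, {F}, fun U hU => by rw [mem_singleton_iff.1 hU]; exact hF,
    by rw [mk_singleton]; exact one_lt_aleph0.trans_le hκ, by simp⟩

lemma GC.iInter (hκ : ℵ₀ ≤ κ) {F : Set E} (hF : GC κ F) {ι : Type u} (hι : #ι < κ) (K : ι → Set E)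
    (hK : ∀ i, IsClopen (K i)) (hne : (F ∩ ⋂ i, K i).Nonempty) : GC κ (F ∩ ⋂ i, K i) := by
  obtain ⟨-, 𝒰, h1, h2, rfl⟩ := hF
  refine ⟨hne, 𝒰 ∪ range K, ?_, ?_, ?_⟩
  · rintro U (hU | ⟨i, rfl⟩)
    · exact h1 U hU
    · exact hK i
  · refine (mk_union_le _ _).trans_lt (add_lt_of_lt hκ h2 ?_)
    exact mk_range_le.trans_lt hι
  · rw [sInter_union, sInter_range]

lemma GC.inter (hκ : ℵ₀ ≤ κ) {F : Set E} (hF : GC κ F) {U : Set E} (hU : IsClopen U)
    (hne : (F ∩ U).Nonempty) : GC κ (F ∩ U) := by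
  have h1 : F ∩ U = F ∩ ⋂ _ : PUnit.{u + 1}, U := by rw [iInter_const]
  rw [h1] at hne ⊢
  refine hF.iInter hκ ?_ _ (fun _ => hU) hne
  rw [mk_fintype]
  exact (natCast_lt_aleph0).trans_le hκ

end gc

section recursion

variable {E : Type u} [TopologicalSpace E] [CompactSpace E]

lemma chain_ne {I : Type u} (r : I → I → Prop) [IsWellOrder I r] (Φ : Set E) (hΦ : IsClosed Φ)
    (hne : Φ.Nonempty) (K : I → Set E) (A : Set I) (hA : ∀ i ∈ A, ∀ j, r j i → j ∈ A)
    (hK : ∀ i ∈ A, IsClosed (K i)) (h : ∀ i ∈ A, ((Φ ∩ ⋂ j : {j // r j i}, K j.1) ∩ K i).Nonempty) :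
    (Φ ∩ ⋂ j : A, K j.1).Nonempty := by
  rcases isEmpty_or_nonempty A with hE | hE
  · rw [iInter_of_empty, inter_univ]; exact hne
  · let C : A → Set E := fun i => (Φ ∩ ⋂ j : {j // r j i.1}, K j.1) ∩ K i.1
    have hCc : ∀ i, IsClosed (C i) := fun i =>
      (hΦ.inter (isClosed_iInter fun j => hK _ (hA i.1 i.2 _ j.2))).inter (hK _ i.2)
    have hlt : ∀ i j : A, r i.1 j.1 → C j ⊆ C i := by
      rintro i j hij x ⟨⟨hx1, hx2⟩, hx3⟩
      have h1 := mem_iInter.1 hx2
      exact ⟨⟨hx1, mem_iInter.2 fun k => h1 ⟨k.1, _root_.trans k.2 hij⟩⟩, h1 ⟨i.1, hij⟩⟩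
    have hdir : Directed (· ⊇ ·) C := by
      intro i j
      rcases trichotomous_of r i.1 j.1 with hij | hij | hij
      · exact ⟨j, hlt i j hij, Subset.rfl⟩
      · have hij' : i = j := Subtype.ext hij
        exact ⟨i, Subset.rfl, by rw [hij']⟩
      · exact ⟨i, Subset.rfl, hlt j i hij⟩
    obtain ⟨x, hx⟩ := IsCompact.nonempty_iInter_of_directed_nonempty_isCompact_isClosed C hdir
      (fun i => h i.1 i.2) (fun i => (hCc i).isCompact) hCc
    have hx' := mem_iInter.1 hx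
    exact ⟨x, (hx' hE.some).1.1, mem_iInter.2 fun j => (hx' j).2⟩

/-- a recursion of length continuum -/
lemma rec_choice {I : Type u} (hI : #I ≤ 𝔠) (Φ : ℕ → Set E) (hΦ : ∀ n, GC 𝔠 (Φ n))
    (P : I → (ℕ → Set E) → Prop)
    (step : ∀ (i : I) (F : ℕ → Set E), (∀ n, GC 𝔠 (F n)) → (∀ n, F n ⊆ Φ n) →
      ∃ K : ℕ → Set E, (∀ n, IsClopen (K n)) ∧ (∀ n, (F n ∩ K n).Nonempty) ∧ P i K) :
    ∃ (s : ℕ → E) (K : I → ℕ → Set E), (∀ n, s n ∈ Φ n) ∧ (∀ i n, s n ∈ K i n) ∧
      ∀ i, P i (K i) := by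
  classical
  obtain ⟨r, hr, hord⟩ := Cardinal.exists_ord_eq I
  have hseg : ∀ i, #{j // r j i} < 𝔠 := fun i => by
    have h1 : (Ordinal.typein r i).card < #I := card_typein_lt i hord
    rw [Ordinal.card_typein] at h1
    exact h1.trans_le hI
  let G : ∀ i, (∀ j, r j i → ℕ → Set E) → ℕ → Set E := fun i K =>
    if h : ∀ n, GC 𝔠 (Φ n ∩ ⋂ j : {j // r j i}, K j.1 j.2 n) then
      (step i (fun n => Φ n ∩ ⋂ j : {j // r j i}, K j.1 j.2 n) h
        (fun n => inter_subset_left)).choose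
    else fun _ => Set.univ
  let K : I → ℕ → Set E := hr.wf.fix G
  have hKe : ∀ i, K i = G i (fun j _ => K j) := fun i => hr.wf.fix_eq G i
  have key : ∀ i, (∀ n, GC 𝔠 (Φ n ∩ ⋂ j : {j // r j i}, K j.1 n)) →
      (∀ n, IsClopen (K i n)) ∧
      (∀ n, ((Φ n ∩ ⋂ j : {j // r j i}, K j.1 n) ∩ K i n).Nonempty) ∧ P i (K i) := by
    intro i h
    have h1 : K i = (step i (fun n => Φ n ∩ ⋂ j : {j // r j i}, K j.1 n) h
        (fun n => inter_subset_left)).choose := by
      rw [hKe i]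
      exact dif_pos h
    rw [h1]
    exact (step i (fun n => Φ n ∩ ⋂ j : {j // r j i}, K j.1 n) h
      (fun n => inter_subset_left)).choose_spec
  have all : ∀ i n, GC 𝔠 (Φ n ∩ ⋂ j : {j // r j i}, K j.1 n) := by
    intro i
    induction i using hr.wf.induction with
    | _ i ih =>
      intro n
      refine (hΦ n).iInter aleph0_le_continuum (hseg i) _ (fun j => (key j.1 (ih j.1 j.2)).1 n) ?_
      exact chain_ne r (Φ n) (hΦ n).isClosed (hΦ n).1 (fun j => K j n) {j | r j i}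
        (fun j hj k hk => _root_.trans hk hj) (fun j hj => ((key j (ih j hj)).1 n).1)
        (fun j hj => (key j (ih j hj)).2.1 n)
  have fin : ∀ n, (Φ n ∩ ⋂ i : (Set.univ : Set I), K i.1 n).Nonempty := fun n =>
    chain_ne r (Φ n) (hΦ n).isClosed (hΦ n).1 (fun j => K j n) Set.univ
      (fun _ _ _ _ => mem_univ _) (fun j _ => ((key j (all j)).1 n).1)
      (fun j _ => (key j (all j)).2.1 n)
  choose s hs using fin
  exact ⟨s, K, fun n => (hs n).1, fun i n => mem_iInter.1 (hs n).2 ⟨i, mem_univ i⟩,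
    fun i => (key i (all i)).2.2⟩

end recursion

section families

/-- almost disjoint families -/
lemma exists_ad {N : Set ℕ} (hN : N.Infinite) : ∃ J : (ℕ → Bool) → Set ℕ, (∀ z, J z ⊆ N) ∧
    (∀ z, (J z).Infinite) ∧ ∀ z w, z ≠ w → (J z ∩ J w).Finite := by
  let c : ℕ ≃ List Bool := (nonempty_equiv_of_countable (α := ℕ) (β := List Bool)).some
  let e : ℕ → ℕ := fun n => (hN.natEmbedding N n : N)
  have he : Function.Injective e := Subtype.val_injective.comp (hN.natEmbedding N).injective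
  have hlen : ∀ {z w : ℕ → Bool} {n m : ℕ}, e (c.symm (rs z n)) = e (c.symm (rs w m)) →
      n = m ∧ rs z n = rs w m := by
    intro z w n m h
    have h1 := c.symm.injective (he h)
    refine ⟨?_, h1⟩
    rw [← rs_length z n, ← rs_length w m, h1]
  refine ⟨fun z => range fun n => e (c.symm (rs z n)), ?_, ?_, ?_⟩
  · rintro z _ ⟨n, rfl⟩
    exact (hN.natEmbedding N _).2
  · exact fun z => infinite_range_of_injective fun n m h => (hlen h).1
  · intro z w hzw
    obtain ⟨k, hk⟩ := Function.ne_iff.1 hzw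
    refine ((Set.finite_le_nat k).image fun n => e (c.symm (rs z n))).subset ?_
    rintro _ ⟨⟨n, rfl⟩, m, hm⟩
    obtain ⟨h1, h2⟩ := hlen hm.symm
    refine ⟨n, ?_, rfl⟩
    by_contra hcon
    subst h1
    exact hk (rs_inj h2 k (not_le.1 hcon))

lemma exists_acc {X : Type u} [TopologicalSpace X] [CompactSpace X] {φ : ℕ → X} {N : Set ℕ}
    (hN : N.Infinite) (hφ : InjOn φ N) : ∃ p, p ∈ closure (φ '' N \ {p}) := by
  obtain ⟨p, -, hp⟩ := (hN.image hφ).exists_accPt_of_subset_isCompact isCompact_univ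
    (subset_univ _)
  refine ⟨p, ?_⟩
  rw [accPt_principal_iff_clusterPt] at hp
  exact mem_closure_iff_clusterPt.2 hp

lemma big_of_family {X : Type u} [TopologicalSpace X] (p : (ℕ → Bool) → X)
    (hp : ∀ z, p z ∈ kernel X)
    (h : ∀ z, ∃ V : Set X, IsOpen V ∧ p z ∈ V ∧ ∀ w, p w ∈ V → w = z) : Big X := by
  have hinj : Function.Injective p := by
    intro z w hzw
    obtain ⟨V, -, h1, h2⟩ := h z
    exact (h2 w (hzw ▸ h1)).symm
  refine ⟨range p, ?_, ?_, ?_⟩
  · rintro _ ⟨z, rfl⟩; exact hp z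
  · have e1 : range p = range (fun z : ULift.{u} (ℕ → Bool) => p z.down) := by
      ext x
      constructor
      · rintro ⟨A, rfl⟩; exact ⟨⟨A⟩, rfl⟩
      · rintro ⟨A, rfl⟩; exact ⟨A.down, rfl⟩
    rw [e1, Cardinal.mk_range_eq _ (fun A A' h => ULift.down_injective (hinj h)),
      Cardinal.mk_uLift]
    have h1 : #(ℕ → Bool) = 𝔠 := by
      rw [← Cardinal.power_def, Cardinal.mk_bool, Cardinal.mk_nat, Cardinal.two_power_aleph0]
    rw [h1, Cardinal.lift_continuum]
  · rintro _ ⟨z, rfl⟩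
    obtain ⟨V, hV, hzV, h1⟩ := h z
    refine ⟨V, hV, ?_⟩
    ext x
    constructor
    · rintro ⟨hx, w, rfl⟩
      rw [h1 w hx]; exact mem_singleton _
    · rintro rfl
      exact ⟨hzV, z, rfl⟩

variable {X : Type u} [TopologicalSpace X] [CompactSpace X] [T2Space X]

/-- free sequences of isolated points -/
lemma big_of_free (φ : ℕ → X) (hφ : ∀ n, IsOpen ({φ n} : Set X)) (N : Set ℕ) (hN : N.Infinite)
    (h : ∀ A ⊆ N, Disjoint (closure (φ '' A)) (closure (φ '' (N \ A)))) : Big X := by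
  have hinj : InjOn φ N := by
    intro m hm n hn hmn
    by_contra hne
    refine (h {m} (by simpa using hm)).le_bot ⟨subset_closure ⟨m, rfl, rfl⟩,
      subset_closure ⟨n, ⟨hn, fun h' => hne h'.symm⟩, hmn.symm⟩⟩
  -- accumulation points are not isolated
  have hacc : ∀ (M : Set ℕ) (p : X), p ∈ closure (φ '' M \ {p}) → ∀ n, p ≠ φ n := by
    rintro M p hp n rfl
    obtain ⟨x, hx, hx'⟩ := mem_closure_iff.1 hp _ (hφ n) rfl
    exact hx'.2 hx
  let Z : Set X := {p | p ∈ closure (φ '' N \ {p})}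
  have hZ : ∀ p ∈ Z, p ∈ closure (Z \ {p}) := by
    intro p hp
    rw [mem_closure_iff]
    intro V hV hpV
    obtain ⟨V', hV', hV'c, hV'V⟩ := exists_mem_nhds_isClosed_subset (hV.mem_nhds hpV)
    obtain ⟨V'', hV''s, hV''o, hpV''⟩ := mem_nhds_iff.1 hV'
    have hM : {n ∈ N | φ n ∈ V'}.Infinite := by
      intro hfin
      have h1 : IsClosed (φ '' {n ∈ N | φ n ∈ V'}) := (hfin.image φ).isClosed
      have h2 : p ∉ φ '' {n ∈ N | φ n ∈ V'} := by
        rintro ⟨n, -, hn⟩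
        exact hacc N p hp n hn.symm
      obtain ⟨x, hx, ⟨n, hn, rfl⟩, hx''⟩ := mem_closure_iff.1 hp
        (V'' ∩ (φ '' {n ∈ N | φ n ∈ V'})ᶜ) (hV''o.inter h1.isOpen_compl) ⟨hpV'', h2⟩
      exact hx.2 ⟨n, ⟨hn, hV''s hx.1⟩, rfl⟩
    obtain ⟨J, hJ1, hJ2, hJ3⟩ := exists_ad hM
    let z : ℕ → Bool := fun _ => true
    let w : ℕ → Bool := fun _ => false
    have hzw : z ≠ w := fun h' => by simpa [z, w] using congrFun h' 0
    have hA : (J z \ J w).Infinite := by
      intro hfin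
      apply hJ2 z
      have h3 : J z = (J z \ J w) ∪ (J z ∩ J w) := (sdiff_union_inter _ _).symm
      rw [h3]
      exact hfin.union (hJ3 z w hzw)
    have hsub : ∀ {A : Set ℕ}, A ⊆ {n ∈ N | φ n ∈ V'} → A ⊆ N := fun hA n hn => (hA hn).1
    have hA1 : J z \ J w ⊆ {n ∈ N | φ n ∈ V'} := sdiff_subset.trans (hJ1 z)
    obtain ⟨q, hq⟩ := exists_acc hA (hinj.mono (hsub hA1))
    obtain ⟨q', hq'⟩ := exists_acc (hJ2 w) (hinj.mono (hsub (hJ1 w)))
    have hqZ : ∀ {A : Set ℕ} {x : X}, A ⊆ {n ∈ N | φ n ∈ V'} → x ∈ closure (φ '' A \ {x}) →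
        x ∈ V ∩ Z := by
      intro A x hA hx
      refine ⟨hV'V (closure_minimal ?_ hV'c hx), ?_⟩
      · rintro _ ⟨⟨n, hn, rfl⟩, -⟩
        exact (hA hn).2
      · exact closure_mono (sdiff_subset_sdiff_left (image_mono (hsub hA))) hx
    have hqq : q ≠ q' := by
      rintro rfl
      refine (h (J z \ J w) (hsub hA1)).le_bot ⟨closure_mono sdiff_subset hq, ?_⟩
      refine closure_mono (sdiff_subset.trans (image_mono ?_)) hq'
      exact fun n hn => ⟨hsub (hJ1 w) hn, fun h' => h'.2 hn⟩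
    by_cases hqp : q = p
    · refine ⟨q', (hqZ (hJ1 w) hq').1, (hqZ (hJ1 w) hq').2, fun h' => hqq ?_⟩
      rw [hqp]; exact (mem_singleton_iff.1 h').symm
    · exact ⟨q, (hqZ hA1 hq).1, (hqZ hA1 hq).2, hqp⟩
  obtain ⟨J, hJ1, hJ2, hJ3⟩ := exists_ad hN
  choose p hp using fun z => exists_acc (hJ2 z) (hinj.mono (hJ1 z))
  refine big_of_family p (fun z => ⟨Z, hZ, ?_⟩) fun z => ?_
  · exact closure_mono (sdiff_subset_sdiff_left (image_mono (hJ1 z))) (hp z)
  · refine ⟨(closure (φ '' (N \ J z)))ᶜ, isClosed_closure.isOpen_compl, fun h' => ?_, ?_⟩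
    · exact (h (J z) (hJ1 z)).le_bot ⟨closure_mono sdiff_subset (hp z), h'⟩
    · intro w hw
      by_contra hne
      apply hw
      have h1 : φ '' J w \ {p w} ⊆ φ '' (N \ J z) ∪ φ '' (J w ∩ J z) := by
        rintro _ ⟨⟨n, hn, rfl⟩, -⟩
        by_cases hz : n ∈ J z
        · exact Or.inr ⟨n, ⟨hn, hz⟩, rfl⟩
        · exact Or.inl ⟨n, ⟨hJ1 w hn, hz⟩, rfl⟩
      have h2 := closure_mono h1 (hp w)
      rw [closure_union, ((hJ3 w z hne).image φ).isClosed.closure_eq] at h2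
      rcases h2 with h2 | ⟨n, -, hn⟩
      · exact h2
      · exact (hacc _ _ (hp w) n hn.symm).elim

omit [CompactSpace X] in
/-- open copies of compact spaces -/
lemma emb_open (hco : ∀ F : Set X, IsClosed F → ∃ U : Set X, IsClopen U ∧ Nonempty (F ≃ₜ U))
    {Z : Type u} [TopologicalSpace Z] [CompactSpace Z] (f : Z → X) (hf : Continuous f)
    (hf' : Function.Injective f) : ∃ g : Z → X, IsOpenEmbedding g := by
  have h3 : IsClosedEmbedding f := hf.isClosedEmbedding hf'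
  obtain ⟨g, hg⟩ := copies hco (range f) h3.isClosed_range
  exact ⟨_, hg.comp h3.isEmbedding.toHomeomorph.isOpenEmbedding⟩

/-- disjoint sequences can be shrunk to null sequences -/
theorem exists_null
    (hco : ∀ F : Set X, IsClosed F → ∃ U : Set X, IsClopen U ∧ Nonempty (F ≃ₜ U))
    (hiso : #{x : X | IsOpen ({x} : Set X)} ≤ 𝔠) (hbig : ¬ Big X)
    {E : Type u} [TopologicalSpace E] [CompactSpace E] [T2Space E]
    (j : E → X) (hj : Continuous j) (hj' : Function.Injective j)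
    (Φ O : ℕ → Set E) (hΦ : ∀ n, GC 𝔠 (Φ n)) (hO : ∀ n, IsOpen (O n)) (hΦO : ∀ n, Φ n ⊆ O n)
    (hOd : Pairwise fun m n => Disjoint (O m) (O n)) :
    ∃ F : ℕ → Set E, (∀ n, GC 𝔠 (F n)) ∧ (∀ n, F n ⊆ Φ n) ∧
      ∀ b : Set E, IsClopen b → {n | (F n ∩ b).Nonempty ∧ (F n \ b).Nonempty}.Finite := by
  classical
  by_contra hcon
  push Not at hcon
  let I := ℕ → {x : X | IsOpen ({x} : Set X)}
  have hI : #I ≤ 𝔠 := by
    have h1 : #I = #{x : X | IsOpen ({x} : Set X)} ^ (ℵ₀ : Cardinal.{u}) := by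
      rw [Cardinal.mk_arrow, Cardinal.mk_nat, Cardinal.lift_aleph0, Cardinal.lift_uzero]
    rw [h1]
    exact (Cardinal.power_le_power_right hiso).trans_eq Cardinal.continuum_power_aleph0
  obtain ⟨s, K, hs1, hs2, hs3⟩ := rec_choice hI Φ hΦ
    (fun φ K => ∃ (A B : Set ℕ) (b : Set E), IsClopen b ∧ (∀ n ∈ A, K n ⊆ b) ∧
      (∀ n ∈ B, K n ⊆ bᶜ) ∧
      ¬ Disjoint (closure ((fun n => (φ n : X)) '' A)) (closure ((fun n => (φ n : X)) '' B))) (by
    intro φ F hF hFΦ
    obtain ⟨b, hb, hinf⟩ := hcon F hF hFΦ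
    set N : Set ℕ := {n | (F n ∩ b).Nonempty ∧ (F n \ b).Nonempty} with hN
    have hex : ∃ A ⊆ N, ¬ Disjoint (closure ((fun n => (φ n : X)) '' A))
        (closure ((fun n => (φ n : X)) '' (N \ A))) := by
      by_contra h
      push Not at h
      exact hbig (big_of_free _ (fun n => (φ n).2) N hinf h)
    obtain ⟨A, hA, hAd⟩ := hex
    refine ⟨fun n => if n ∈ A then b else if n ∈ N then bᶜ else Set.univ, fun n => ?_,
      fun n => ?_, A, N \ A, b, hb, fun n hn => ?_, fun n hn => ?_, hAd⟩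
    · by_cases h1 : n ∈ A
      · simp only [h1, if_true]; exact hb
      · by_cases h2 : n ∈ N
        · simp only [h1, h2, if_true, if_false]; exact hb.compl
        · simp only [h1, h2, if_false]; exact isClopen_univ
    · by_cases h1 : n ∈ A
      · simp only [h1, if_true]; exact (hA h1).1
      · by_cases h2 : n ∈ N
        · simp only [h1, h2, if_true, if_false]; exact h2.2
        · simp only [h1, h2, if_false, inter_univ]; exact (hF n).1
    · simp only [hn, if_true]; exact Subset.rfl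
    · simp only [hn.2, hn.1, if_true, if_false]; exact Subset.rfl)
  -- the copy of the closure of the sequence
  let S : Set E := closure (range s)
  have hSc : CompactSpace S := isCompact_iff_compactSpace.1 isClosed_closure.isCompact
  obtain ⟨g, hg⟩ := emb_open hco (fun x : S => j x.1) (hj.comp continuous_subtype_val)
    (hj'.comp Subtype.val_injective)
  have hsS : ∀ n, s n ∈ S := fun n => subset_closure (mem_range_self n)
  have hsiso : ∀ n, IsOpen ({⟨s n, hsS n⟩} : Set S) := by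
    intro n
    have h1 : ({⟨s n, hsS n⟩} : Set S) = Subtype.val ⁻¹' (O n) := by
      ext x
      constructor
      · rintro rfl; exact hΦO n (hs1 n)
      · intro hx
        by_contra hne
        have hne' : x.1 ∉ ({s n} : Set E) := fun h => hne (Subtype.ext h)
        obtain ⟨y, hy, m, rfl⟩ := mem_closure_iff.1 x.2 (O n ∩ {s n}ᶜ)
          ((hO n).inter isOpen_compl_singleton) ⟨hx, hne'⟩
        by_cases hmn : m = n
        · exact hy.2 (by rw [hmn]; exact mem_singleton _)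
        · exact (hOd hmn).le_bot ⟨hΦO m (hs1 m), hy.1⟩
    rw [h1]
    exact (hO n).preimage continuous_subtype_val
  let φ : I := fun n => ⟨g ⟨s n, hsS n⟩, by
    have h1 := hg.isOpenMap _ (hsiso n)
    rwa [image_singleton] at h1⟩
  obtain ⟨A, B, b, hb, hA, hB, hd⟩ := hs3 φ
  apply hd
  have hgc : IsClosedMap g := hg.continuous.isClosedMap
  have h1 : closure ((fun n => (φ n : X)) '' A) ⊆ g '' (Subtype.val ⁻¹' b) := by
    refine closure_minimal ?_ (hgc _ (hb.1.preimage continuous_subtype_val))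
    rintro _ ⟨n, hn, rfl⟩
    exact ⟨_, hA n hn (hs2 φ n), rfl⟩
  have h2 : closure ((fun n => (φ n : X)) '' B) ⊆ g '' (Subtype.val ⁻¹' bᶜ) := by
    refine closure_minimal ?_ (hgc _ (hb.compl.1.preimage continuous_subtype_val))
    rintro _ ⟨n, hn, rfl⟩
    exact ⟨_, hB n hn (hs2 φ n), rfl⟩
  refine Disjoint.mono h1 h2 ?_
  rw [Set.disjoint_left]
  rintro _ ⟨x, hx, rfl⟩ ⟨y, hy, hxy⟩
  rw [hg.injective hxy] at hy
  exact hy hx

end families

section family

variable {X : Type u} [TopologicalSpace X] [CompactSpace X] [T2Space X]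

lemma GC.crowded {E : Type u} [TopologicalSpace E] [CompactSpace E] [T2Space E]
    [TotallyDisconnectedSpace E] {κ : Cardinal.{u}} (hκ : ℵ₀ < κ)
    (hch : ∀ (e : E) (𝒱 : Set (Set E)), NB e 𝒱 → κ ≤ #𝒱) {F : Set E} (hF : GC κ F) :
    ∀ x ∈ F, x ∈ closure (F \ {x}) := by
  classical
  intro x hx
  by_contra hcon
  have h0 : x ∈ (closure (F \ {x}))ᶜ := hcon
  obtain ⟨b, hb, hxb, hbO⟩ := compact_exists_isClopen_in_isOpen isClosed_closure.isOpen_compl h0
  obtain ⟨-, 𝒰, h1, h2, rfl⟩ := hF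
  let 𝒲 : Set (Set E) := insert b 𝒰
  have hW : ∀ W ∈ 𝒲, IsClopen W ∧ x ∈ W := by
    rintro W (rfl | hW)
    · exact ⟨hb, hxb⟩
    · exact ⟨h1 W hW, hx W hW⟩
  have hW2 : ∀ z, (∀ W ∈ 𝒲, z ∈ W) → z = x := by
    intro z hz
    by_contra hne
    have hzb : z ∈ b := hz b (Or.inl rfl)
    refine hbO hzb (subset_closure ⟨?_, hne⟩)
    exact fun U hU => hz U (Or.inr hU)
  have hWc : #𝒲 < κ := by
    refine (Cardinal.mk_insert_le).trans_lt (add_lt_of_lt hκ.le h2 ?_)
    exact one_lt_aleph0.trans hκ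
  have hfin : #(Finset 𝒲) < κ := by
    rcases finite_or_infinite 𝒲 with hf | hf
    · exact (lt_aleph0_of_finite (Finset 𝒲)).trans hκ
    · rw [mk_finset_of_infinite]; exact hWc
  let 𝒱 : Set (Set E) := range fun t : Finset 𝒲 => ⋂ W ∈ t, W.1
  have hNB : NB x 𝒱 := by
    refine ⟨?_, ?_⟩
    · rintro _ ⟨t, rfl⟩
      exact (Filter.biInter_finset_mem _).2 fun W _ => (hW W.1 W.2).1.isOpen.mem_nhds (hW W.1 W.2).2
    · intro U hU
      obtain ⟨U', hU'U, hU'o, hxU'⟩ := mem_nhds_iff.1 hU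
      obtain ⟨t, ht⟩ := hU'o.isClosed_compl.isCompact.elim_finite_subfamily_closed
        (fun W : 𝒲 => W.1) (fun W => (hW W.1 W.2).1.isClosed) (by
          rw [Set.eq_empty_iff_forall_notMem]
          rintro z ⟨hz1, hz2⟩
          apply hz1
          rw [hW2 z fun W hW => mem_iInter.1 hz2 ⟨W, hW⟩]
          exact hxU')
      refine ⟨_, ⟨t, rfl⟩, fun z hz => hU'U ?_⟩
      by_contra hz'
      have h3 : z ∈ U'ᶜ ∩ ⋂ W ∈ t, W.1 := ⟨hz', hz⟩
      rw [ht] at h3
      exact h3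
  exact absurd (hch x 𝒱 hNB) (not_le.2 (mk_range_le.trans_lt hfin))

/-- The nonempty intersections of fewer than continuum many clopen sets form a family with null
sequences. -/
theorem GC_GF
    (hco : ∀ F : Set X, IsClosed F → ∃ U : Set X, IsClopen U ∧ Nonempty (F ≃ₜ U))
    (hiso : #{x : X | IsOpen ({x} : Set X)} ≤ 𝔠) (hbig : ¬ Big X)
    {E : Type u} [TopologicalSpace E] [CompactSpace E] [T2Space E] [TotallyDisconnectedSpace E]
    (j : E → X) (hj : Continuous j) (hj' : Function.Injective j)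
    (hch : ∀ (e : E) (𝒱 : Set (Set E)), NB e 𝒱 → 𝔠 ≤ #𝒱) : GF {F : Set E | GC 𝔠 F} where
  ne F hF := hF.1
  closed F hF := GC.isClosed hF
  inter F hF b hb hne := GC.inter aleph0_le_continuum hF hb hne
  crowded F hF := GC.crowded aleph0_lt_continuum hch hF
  null Φ O hΦ hO hOd hΦO := by
    obtain ⟨F, h1, h2, h3⟩ := exists_null hco hiso hbig j hj hj' Φ O hΦ (fun n => (hO n).isOpen)
      hΦO hOd
    refine ⟨id, F, Function.injective_id, h1, h2, fun b hb => (h3 b hb).subset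
      fun n hn => ⟨hn.1, ?_⟩⟩
    exact sdiff_nonempty.2 hn.2

end family

end Pool.Agent.Lib.MP_77266e_gtP
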