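import Pool.Agent.Lib.MP_77266e_gtP.Blocks

/-!
# Case B, part 2: the increasing ray

`claim`: two open embeddings of the closures of the unions of the blocks with indices in `J` and in
`J'`, where `J ∩ J'` is finite, have images which meet only in images of points of blocks.
-/

namespace Pool.Agent.Lib.MP_77266e_gtP

open Set Topology Filter
open Pool.Agent.Lib.MP_77266e_gt

universe u v

variable {E : Type u} [TopologicalSpace E] {X : Type v} [TopologicalSpace X]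

/-- image of a block -/
def Im {B : ℕ → Finset E} {J : Set ℕ} (h : closure (EJ B J) → X) (n : ℕ) : Set X :=
  {x | ∃ (d : E) (_ : d ∈ B n) (hd : d ∈ closure (EJ B J)), h ⟨d, hd⟩ = x}

/-- blocks with `2 ^ n` points -/
structure Blk (B : ℕ → Finset E) (O : ℕ → Set E) : Prop where
  oO : ∀ n, IsOpen (O n)
  dO : Pairwise fun m n => Disjoint (O m) (O n)
  sub : ∀ n, (B n : Set E) ⊆ O n
  card : ∀ n, (B n).card = 2 ^ n
  null : Null fun n => (B n : Set E)

lemma sum_two_pow (n : ℕ) : ∑ m ∈ Finset.range n, 2 ^ m < 2 ^ n := by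
  induction n with
  | zero => simp
  | succ n ih =>
    rw [Finset.sum_range_succ, pow_succ]
    omega

variable [CompactSpace E] [T2Space E] [TotallyDisconnectedSpace E]

omit [CompactSpace E] [TotallyDisconnectedSpace E] in
lemma half {B : ℕ → Finset E} {O : ℕ → Set E} (S : Blk B O) {J J' : Set ℕ}
    {h : closure (EJ B J) → X} {h' : closure (EJ B J') → X} (hh : IsOpenEmbedding h)
    (hh' : IsOpenEmbedding h') {n : ℕ} (hn : n ∈ J) (hn' : n ∉ J') (hV : Im h n ⊆ range h') :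
    ∃ m, n < m ∧ m ∈ J' ∧ (Im h n ∩ Im h' m).Nonempty := by
  classical
  have key : ∀ d : {d // d ∈ B n}, ∃ m, m ∈ J' ∧ ∃ d' ∈ B m,
      ∃ hd' : d' ∈ closure (EJ B J'), h' ⟨d', hd'⟩ = h ⟨d.1, mem_cj hn d.2⟩ := by
    rintro ⟨d, hd⟩
    obtain ⟨q, hq⟩ := hV ⟨d, hd, mem_cj hn hd, rfl⟩
    have h1 := iso_block S.oO S.dO S.sub (mem_cj hn hd) hd
    have h2 := hh.isOpenMap _ h1
    rw [image_singleton, ← hq] at h2
    have h3 : h' ⁻¹' {h' q} = {q} := by
      ext z
      simp [hh'.injective.eq_iff]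
    have h4 := h2.preimage hh'.continuous
    rw [h3] at h4
    obtain ⟨m, hm, hqm⟩ := mem_EJ.1 (iso_mem q h4)
    exact ⟨m, hm, q, hqm, q.2, hq⟩
  choose m hm d' hd' hd2 he using key
  by_contra hcon
  push Not at hcon
  have hlt : ∀ d, m d < n := by
    intro d
    by_contra hge
    have h1 : m d ≠ n := fun h1 => hn' (h1 ▸ hm d)
    have h2 := hcon (m d) (by omega) (hm d)
    have h3 : h ⟨d.1, mem_cj hn d.2⟩ ∈ Im h n ∩ Im h' (m d) :=
      ⟨⟨d.1, d.2, _, rfl⟩, ⟨d' d, hd' d, hd2 d, he d⟩⟩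
    rw [h2] at h3
    exact h3
  have h1 : (B n).attach.card ≤ ((Finset.range n).biUnion B).card := by
    refine Finset.card_le_card_of_injOn d' (fun d _ => ?_) (fun d _ e _ hde => ?_)
    · exact Finset.mem_coe.2 (Finset.mem_biUnion.2 ⟨m d, Finset.mem_range.2 (hlt d), hd' d⟩)
    · have h2 : (⟨d' d, hd2 d⟩ : closure (EJ B J')) = ⟨d' e, hd2 e⟩ := Subtype.ext hde
      have h3 := he d
      rw [h2, he e] at h3
      have h4 := hh.injective h3
      exact Subtype.ext (congrArg Subtype.val h4).symm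
  rw [Finset.card_attach, S.card] at h1
  have h2 : ((Finset.range n).biUnion B).card ≤ ∑ m ∈ Finset.range n, 2 ^ m := by
    refine Finset.card_biUnion_le.trans ?_
    exact Finset.sum_le_sum fun m _ => (S.card m).le
  have h3 := sum_two_pow n
  omega

lemma ev_cut {B : ℕ → Finset E} (hnull : Null fun n => (B n : Set E)) {J : Set ℕ}
    {h : closure (EJ B J) → X} (hh : Continuous h) {W : Set X} (hW : IsClopen W) :
    ∃ N, ∀ n, N ≤ n → n ∈ J → (Im h n ∩ W).Nonempty → Im h n ⊆ W := by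
  obtain ⟨N, hN⟩ := (cut_finite hnull hh hW).bddAbove
  refine ⟨N + 1, fun n hn hnJ hne x hx => ?_⟩
  by_contra hxW
  obtain ⟨y, ⟨d, hd, hd', rfl⟩, hyW⟩ := hne
  obtain ⟨e, he, he', rfl⟩ := hx
  have h1 := hN ⟨hnJ, ⟨d, hd, hd', hyW⟩, ⟨e, he, he', hxW⟩⟩
  omega

variable [T2Space X]

omit [T2Space E] [TotallyDisconnectedSpace E] in
lemma clopen_image {B : ℕ → Finset E} {J : Set ℕ} {h : closure (EJ B J) → X}
    (hh : IsOpenEmbedding h) {b : Set (closure (EJ B J))} (hb : IsClopen b) :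
    IsClopen (h '' b) := by
  have hc : CompactSpace (closure (EJ B J)) :=
    isCompact_iff_compactSpace.1 isClosed_closure.isCompact
  exact ⟨(hb.isClosed.isCompact.image hh.continuous).isClosed, hh.isOpenMap b hb.isOpen⟩

lemma ray {B : ℕ → Finset E} {O : ℕ → Set E} (S : Blk B O) {J : Bool → Set ℕ}
    {h : (s : Bool) → closure (EJ B (J s)) → X} (hh : ∀ s, IsOpenEmbedding (h s))
    (hfin : (J false ∩ J true).Finite) (p : closure (EJ B (J false)))
    (hp : (p : E) ∉ EJ B (J false)) (hpV : h false p ∈ range (h true)) :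
    ∃ (N : ℕ → ℕ) (x : ℕ → X), StrictMono N ∧ (∀ k, N k ∈ J k.bodd) ∧
      (∀ k, x k ∈ Im (h k.bodd) (N k)) ∧ ∀ k, x k ∈ Im (h (k + 1).bodd) (N (k + 1)) := by
  classical
  obtain ⟨V, hVdef⟩ : ∃ V : Set X, V = range (h false) ∩ range (h true) := ⟨_, rfl⟩
  have hVc : IsClopen V := by
    rw [hVdef, ← image_univ, ← image_univ]
    exact (clopen_image (hh false) isClopen_univ).inter (clopen_image (hh true) isClopen_univ)
  obtain ⟨M, hM⟩ : ∃ M, ∀ n, M ≤ n → ∀ s, n ∈ J s → (Im (h s) n ∩ V).Nonempty →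
      Im (h s) n ⊆ V := by
    obtain ⟨N1, h1⟩ := ev_cut S.null (hh false).continuous hVc
    obtain ⟨N2, h2⟩ := ev_cut S.null (hh true).continuous hVc
    refine ⟨max N1 N2, fun n hn s => ?_⟩
    cases s
    · exact h1 n ((le_max_left _ _).trans hn)
    · exact h2 n ((le_max_right _ _).trans hn)
  obtain ⟨M', hM'⟩ := hfin.bddAbove
  obtain ⟨N0, hN0⟩ : ∃ N0, N0 = max M (M' + 1) := ⟨_, rfl⟩
  have hsep : ∀ n, N0 ≤ n → ∀ s, n ∈ J s → n ∉ J (!s) := by
    intro n hn s h1 h2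
    have h3 : n ∈ J false ∩ J true := by
      cases s
      · exact ⟨h1, h2⟩
      · exact ⟨h2, h1⟩
    have h4 := hM' h3
    have h5 : M' + 1 ≤ n := (le_max_right _ _).trans (hN0 ▸ hn)
    omega
  have hcut : ∀ n, N0 ≤ n → ∀ s, n ∈ J s → (Im (h s) n ∩ V).Nonempty → Im (h s) n ⊆ V :=
    fun n hn => hM n ((le_max_left _ _).trans (hN0 ▸ hn))
  have hVr : ∀ s, V ⊆ range (h s) := by
    intro s
    rw [hVdef]
    cases s
    · exact inter_subset_left
    · exact inter_subset_right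
  -- the first block
  have hfirst : ∃ n, N0 ≤ n ∧ n ∈ J false ∧ Im (h false) n ⊆ V := by
    obtain ⟨U, hU, hU'⟩ := isOpen_induced_iff.1 (hVc.isOpen.preimage (hh false).continuous)
    have hpV' : h false p ∈ V := by
      rw [hVdef]; exact ⟨mem_range_self p, hpV⟩
    have hpU : (p : E) ∈ U := by
      have h1 : p ∈ Subtype.val ⁻¹' U := by rw [hU']; exact hpV'
      exact h1
    have hpB : (p : E) ∉ (((Finset.range N0).biUnion B : Finset E) : Set E) := by
      intro h1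
      obtain ⟨m, -, hm⟩ := Finset.mem_biUnion.1 (Finset.mem_coe.1 h1)
      have h2 := cj_block S.oO S.dO S.sub p.2 (S.sub m hm)
      exact hp (mem_EJ.2 ⟨m, h2.1, h2.2⟩)
    obtain ⟨z, hz, hzE⟩ := mem_closure_iff.1 p.2
      (U ∩ (((Finset.range N0).biUnion B : Finset E) : Set E)ᶜ)
      (hU.inter ((Finset.range N0).biUnion B).finite_toSet.isClosed.isOpen_compl) ⟨hpU, hpB⟩
    obtain ⟨n, hn, hzn⟩ := mem_EJ.1 hzE
    have hnN : N0 ≤ n := by
      by_contra hlt
      exact hz.2 (Finset.mem_coe.2 (Finset.mem_biUnion.2 ⟨n, Finset.mem_range.2 (by omega), hzn⟩))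
    refine ⟨n, hnN, hn, hcut n hnN false hn ⟨h false ⟨z, mem_cj hn hzn⟩,
      ⟨z, hzn, _, rfl⟩, ?_⟩⟩
    have h1 : (⟨z, mem_cj hn hzn⟩ : closure (EJ B (J false))) ∈ Subtype.val ⁻¹' U := hz.1
    rw [hU'] at h1
    exact h1
  have step : ∀ (k n : ℕ), (N0 ≤ n ∧ n ∈ J k.bodd ∧ Im (h k.bodd) n ⊆ V) →
      ∃ m, n < m ∧ (N0 ≤ m ∧ m ∈ J (k + 1).bodd ∧ Im (h (k + 1).bodd) m ⊆ V) ∧
        (Im (h k.bodd) n ∩ Im (h (k + 1).bodd) m).Nonempty := by
    rintro k n ⟨h1, h2, h3⟩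
    rw [Nat.bodd_succ]
    obtain ⟨m, hm, hmJ, x, hx, hx'⟩ := half S (hh k.bodd) (hh (!k.bodd)) h2 (hsep n h1 _ h2)
      (h3.trans (hVr _))
    exact ⟨m, hm, ⟨h1.trans hm.le, hmJ, hcut m (h1.trans hm.le) _ hmJ ⟨x, hx', h3 hx⟩⟩,
      ⟨x, hx, hx'⟩⟩
  choose! f hf1 hf2 hf3 using step
  obtain ⟨n0, hn0⟩ := hfirst
  let N : ℕ → ℕ := fun n => Nat.rec n0 (fun k Nk => f k Nk) n
  have NS : ∀ k, N (k + 1) = f k (N k) := fun k => rfl
  have hN : ∀ k, N0 ≤ N k ∧ N k ∈ J k.bodd ∧ Im (h k.bodd) (N k) ⊆ V := by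
    intro k
    induction k with
    | zero => exact hn0
    | succ k ih =>
      rw [NS]
      exact hf2 k (N k) ih
  have hx : ∀ k, (Im (h k.bodd) (N k) ∩ Im (h (k + 1).bodd) (N (k + 1))).Nonempty := by
    intro k
    rw [NS]
    exact hf3 k (N k) (hN k)
  choose x hx1 hx2 using hx
  exact ⟨N, x, strictMono_nat_of_lt_succ fun k => by rw [NS]; exact hf1 k (N k) (hN k),
    fun k => (hN k).2.1, hx1, hx2⟩

theorem claim {B : ℕ → Finset E} {O : ℕ → Set E} (S : Blk B O) {G : Set (Set E)} {Φ : Set E}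
    {F : ℕ → Set E} (hF : ∀ n, F n ∈ G) (hFΦ : ∀ n, F n ⊆ Φ) (hBF : ∀ n, (B n : Set E) ⊆ F n)
    (hnull : Null F) (hΦ : ¬ ConvIn G Φ) {J : Bool → Set ℕ}
    {h : (s : Bool) → closure (EJ B (J s)) → X} (hh : ∀ s, IsOpenEmbedding (h s))
    (hfin : (J false ∩ J true).Finite) (p : closure (EJ B (J false)))
    (hp : (p : E) ∉ EJ B (J false)) (hpV : h false p ∈ range (h true)) : False := by
  obtain ⟨N, x, hN, hNJ, hx1, hx2⟩ := ray S hh hfin p hp hpV
  have hu : ∀ k, ∃ u : closure (EJ B (J false)), h false u = x k := by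
    intro k
    by_cases hk : k.bodd = false
    · have h1 := hx1 k
      rw [hk] at h1
      obtain ⟨d, -, hd, h2⟩ := h1
      exact ⟨⟨d, hd⟩, h2⟩
    · have h1 := hx2 k
      have hk' : (k + 1).bodd = false := by
        rw [Nat.bodd_succ]
        revert hk
        cases k.bodd <;> decide
      rw [hk'] at h1
      obtain ⟨d, -, hd, h2⟩ := h1
      exact ⟨⟨d, hd⟩, h2⟩
  choose u hu using hu
  have hev : ∀ b : Set E, IsClopen b → ∃ K, ∀ k, K ≤ k → ((u k : E) ∈ b ↔ (u K : E) ∈ b) := by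
    intro b hb
    have hW : IsClopen (h false '' (Subtype.val ⁻¹' b)) :=
      clopen_image (hh false) (hb.preimage continuous_subtype_val)
    have hiff : ∀ k, (u k : E) ∈ b ↔ x k ∈ h false '' (Subtype.val ⁻¹' b) := by
      intro k
      rw [← hu k]
      constructor
      · intro h1
        exact ⟨u k, h1, rfl⟩
      · rintro ⟨w, hw, hwu⟩
        have h2 := (hh false).injective hwu
        rw [← h2]
        exact hw
    obtain ⟨M, hM⟩ : ∃ M, ∀ n, M ≤ n → ∀ s, n ∈ J s →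
        (Im (h s) n ∩ (h false '' (Subtype.val ⁻¹' b))).Nonempty →
        Im (h s) n ⊆ h false '' (Subtype.val ⁻¹' b) := by
      obtain ⟨N1, h1⟩ := ev_cut S.null (hh false).continuous hW
      obtain ⟨N2, h2⟩ := ev_cut S.null (hh true).continuous hW
      refine ⟨max N1 N2, fun n hn s => ?_⟩
      cases s
      · exact h1 n ((le_max_left _ _).trans hn)
      · exact h2 n ((le_max_right _ _).trans hn)
    have hstep : ∀ k, M ≤ k → ((u k : E) ∈ b ↔ (u (k + 1) : E) ∈ b) := by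
      intro k hk
      rw [hiff, hiff]
      have h1 : M ≤ N (k + 1) := (hk.trans (Nat.le_succ k)).trans (hN.le_apply)
      have h2 := hM (N (k + 1)) h1 _ (hNJ (k + 1))
      constructor
      · intro h3
        exact h2 ⟨x k, hx2 k, h3⟩ (hx1 (k + 1))
      · intro h3
        exact h2 ⟨x (k + 1), hx1 (k + 1), h3⟩ (hx2 k)
    refine ⟨M, fun k hk => ?_⟩
    induction k, hk using Nat.le_induction with
    | base => exact Iff.rfl
    | succ k hk ih => exact (hstep k hk).symm.trans ih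
  obtain ⟨q, hq⟩ := exists_clusterPt_of_compactSpace (map (fun k => (u k : E)) atTop)
  have hq' : ∀ b : Set E, IsClopen b → q ∈ b → ∃ K, ∀ k, K ≤ k → (u k : E) ∈ b := by
    intro b hb hqb
    obtain ⟨K, hK⟩ := hev b hb
    have h1 : ∃ᶠ k in atTop, (u k : E) ∈ b := by
      have h2 : MapClusterPt q atTop (fun k => (u k : E)) := hq
      exact h2.frequently (hb.isOpen.mem_nhds hqb)
    obtain ⟨k, hk, hkb⟩ := (Filter.frequently_atTop.1 h1) K
    exact ⟨K, fun k' hk' => (hK k' hk').2 ((hK k hk).1 hkb)⟩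
  apply hΦ
  refine ⟨q, fun i => F (N (2 * i)), fun i => hF _, fun i => hFΦ _, fun b hb hqb => ?_⟩
  obtain ⟨K, hK⟩ := hq' b hb hqb
  obtain ⟨M, hM⟩ := (hnull b hb).bddAbove
  refine ⟨max K (M + 1), fun i hi => ?_⟩
  by_contra hcon
  have h0 : (2 * i).bodd = false := by
    rw [Nat.bodd_mul]; rfl
  have h1 := hx1 (2 * i)
  rw [h0] at h1
  obtain ⟨d, hd, hd', h2⟩ := h1
  have h3 : u (2 * i) = ⟨d, hd'⟩ := (hh false).injective ((hu (2 * i)).trans h2.symm)
  have h4 : (u (2 * i) : E) ∈ b := hK (2 * i) (by have := (le_max_left K (M + 1)).trans hi; omega)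
  rw [h3] at h4
  have h5 := hM ⟨⟨d, hBF _ hd, h4⟩, hcon⟩
  have h6 : 2 * i ≤ N (2 * i) := hN.le_apply
  have h7 := (le_max_right K (M + 1)).trans hi
  omega

end Pool.Agent.Lib.MP_77266e_gtP
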