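import Pool.Agent.Lib.MP_77266e_gt.Char
import Pool.Agent.Lib.MP_77266e_gtP.GF

/-!
# The first step: a compact space all characters of which are large
-/

namespace Pool.Agent.Lib.MP_77266e_gtP

open Set Topology Filter Cardinal
open Pool.Agent.Lib.MP_77266e_gt

universe u v

/-- `𝒱` is a base of neighbourhoods of `e`. -/
def NB {E : Type u} [TopologicalSpace E] (e : E) (𝒱 : Set (Set E)) : Prop :=
  (∀ V ∈ 𝒱, V ∈ 𝓝 e) ∧ ∀ U ∈ 𝓝 e, ∃ V ∈ 𝒱, V ⊆ U

section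

variable {E : Type u} [TopologicalSpace E] [CompactSpace E] [T2Space E] {g : E → ℕ → Bool}

/-- pointwise version of `char_openSeq` -/
lemma char_seq (hg : Continuous g) (hs : Function.Surjective g)
    (hirr : ∀ E₀ : Set E, E₀ ≠ Set.univ → IsClosed E₀ → g '' E₀ ≠ Set.univ) {e : E}
    (hch : ∃ 𝒱 : Set (Set E), NB e 𝒱 ∧ PI 𝒱) :
    ∃ W : ℕ → Set E, (∀ n, IsOpen (W n)) ∧ (∀ n, (W n).Nonempty) ∧
      ∀ V : Set E, IsOpen V → e ∈ V → ∃ N, ∀ n, N ≤ n → W n ⊆ V := by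
  obtain ⟨𝒱, ⟨h1, h2⟩, h3⟩ := hch
  let c : ℕ ≃ List Bool := (nonempty_equiv_of_countable (α := ℕ) (β := List Bool)).some
  let W : ℕ → Set E := fun n => {x | rs (g x) (c n).length = c n}
  have hW : ∀ n, IsOpen (W n) := fun n => (isOpen_rs _ (c n)).preimage hg
  have hW' : ∀ n, (W n).Nonempty := fun n => by
    obtain ⟨z, hz⟩ := cyl_nonempty (c n)
    obtain ⟨x, rfl⟩ := hs z
    exact ⟨x, hz⟩
  obtain ⟨B, hB, hB'⟩ := h3 (fun V => {n | W n ⊆ V.1}) fun t => by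
    have h4 : (⋂ V ∈ t, V.1) ∈ 𝓝 e := (Filter.biInter_finset_mem _).2 fun V _ => h1 _ V.2
    have h5 : (interior (⋂ V ∈ t, V.1)).Nonempty := ⟨e, mem_interior_iff_mem_nhds.2 h4⟩
    obtain ⟨z, hz⟩ := sh_nonempty hirr isOpen_interior h5
    obtain ⟨k, hk⟩ := cantor_cyl _ (sh_open hg isOpen_interior) z hz
    have h6 : ∀ m, k ≤ m → c.symm (rs z m) ∈ ⋂ V ∈ t, {n | W n ⊆ V.1} := by
      intro m hm
      refine mem_iInter₂.2 fun V hV x hx => ?_
      have h7 : rs (g x) (c (c.symm (rs z m))).length = c (c.symm (rs z m)) := hx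
      rw [Equiv.apply_symm_apply, rs_length] at h7
      have h8 : g x ∈ sh g (interior (⋂ V ∈ t, V.1)) :=
        hk _ fun i hi => rs_inj h7 i (by omega)
      exact mem_iInter₂.1 (interior_subset (mem_of_sh h8)) V hV
    refine Set.infinite_of_injective_forall_mem (f := fun m => c.symm (rs z (m + k))) ?_
      fun m => h6 _ (Nat.le_add_left k m)
    intro m m' hmm
    have h9 := congrArg List.length (c.symm.injective hmm)
    rw [rs_length, rs_length] at h9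
    exact Nat.add_right_cancel h9
  refine ⟨fun n => W (hB.natEmbedding B n), fun n => hW _, fun n => hW' _,
    fun U hU heU => ?_⟩
  obtain ⟨V, hV, hVU⟩ := h2 U (hU.mem_nhds heU)
  have h4 := hB' ⟨V, hV⟩
  have h5 : {n : ℕ | ((hB.natEmbedding B n : B) : ℕ) ∈ B \ {n | W n ⊆ V}}.Finite :=
    h4.preimage ((Subtype.val_injective.comp (hB.natEmbedding B).injective).injOn)
  obtain ⟨N, hN⟩ := h5.bddAbove
  refine ⟨N + 1, fun n hn => ?_⟩
  have h6 : ((hB.natEmbedding B n : B) : ℕ) ∈ {n | W n ⊆ V} := by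
    by_contra hcon
    have h7 := hN ⟨(hB.natEmbedding B n).2, hcon⟩
    omega
  exact Subset.trans h6 hVU

end

lemma nb_preimage {E : Type u} [TopologicalSpace E] {X : Type u} [TopologicalSpace X] {h : E → X}
    (hh : IsEmbedding h) {e : E} {𝒱 : Set (Set X)} (hV : NB (h e) 𝒱) :
    NB e ((fun V => h ⁻¹' V) '' 𝒱) := by
  refine ⟨?_, ?_⟩
  · rintro _ ⟨V, hV', rfl⟩
    exact hh.continuous.continuousAt.preimage_mem_nhds (hV.1 V hV')
  · intro U hU
    rw [hh.nhds_eq_comap] at hU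
    obtain ⟨U', hU', hU''⟩ := Filter.mem_comap.1 hU
    obtain ⟨V, hV', hVU⟩ := hV.2 U' hU'
    exact ⟨_, ⟨V, hV', rfl⟩, (preimage_mono hVU).trans hU''⟩

lemma pi_image {α β : Type u} (f : α → β) {𝒱 : Set α} (h : PI 𝒱) : PI (f '' 𝒱) := by
  classical
  intro A hA
  have h4 : ∀ V : 𝒱, f V.1 ∈ f '' 𝒱 := fun V => ⟨V.1, V.2, rfl⟩
  obtain ⟨B, hB, hB'⟩ := h (fun V => A ⟨_, h4 V⟩) fun t => by
    refine (hA (t.image fun V => ⟨_, h4 V⟩)).mono fun n hn => ?_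
    refine mem_iInter₂.2 fun V hV => ?_
    exact mem_iInter₂.1 hn _ (Finset.mem_image_of_mem _ hV)
  refine ⟨B, hB, ?_⟩
  rintro ⟨_, V, hV, rfl⟩
  exact hB' ⟨V, hV⟩

lemma nb_image {E : Type u} [TopologicalSpace E] {X : Type u} [TopologicalSpace X] {h : E → X}
    (hh : IsOpenEmbedding h) {e : E} {𝒱 : Set (Set E)} (hV : NB e 𝒱) :
    NB (h e) ((fun V => h '' V) '' 𝒱) := by
  refine ⟨?_, ?_⟩
  · rintro _ ⟨V, hV', rfl⟩
    exact hh.isOpenMap.image_mem_nhds (hV.1 V hV')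
  · intro U hU
    obtain ⟨V, hV', hVU⟩ := hV.2 (h ⁻¹' U) (hh.continuous.continuousAt.preimage_mem_nhds hU)
    exact ⟨_, ⟨V, hV', rfl⟩, by rintro _ ⟨z, hz, rfl⟩; exact hVU hz⟩

theorem start {X : Type u} [TopologicalSpace X] [CompactSpace X] [T2Space X]
    [TotallyDisconnectedSpace X] {κ : Cardinal.{u}}
    (hco : ∀ F : Set X, IsClosed F → ∃ U : Set X, IsClopen U ∧ Nonempty (F ≃ₜ U))
    (hch : ∀ x : X, (∃ 𝒱 : Set (Set X), NB x 𝒱 ∧ PI 𝒱) ∨ ∀ 𝒱 : Set (Set X), NB x 𝒱 → κ ≤ #𝒱)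
    (hD : ∀ D ⊆ kernel X, (∀ x ∈ D, ∃ V : Set X, IsOpen V ∧ V ∩ D = {x}) → #D ≠ 𝔠)
    (hX : ¬ Scat X) :
    ∃ (E : Type u) (_ : TopologicalSpace E) (_ : CompactSpace E) (_ : T2Space E)
      (_ : TotallyDisconnectedSpace E) (j : E → X), Nonempty E ∧ Continuous j ∧
      Function.Injective j ∧ ∀ (e : E) (𝒱 : Set (Set E)), NB e 𝒱 → κ ≤ #𝒱 := by
  classical
  obtain ⟨D, tD, cD, t2D, j, π, hj, hj', hπ, hπ'⟩ :=
    exists_map isClosed_kernel (kernel_of_not_scat hX) kernel_crowded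
  obtain ⟨E, cE, g, hg, hgs, hgi⟩ := exists_irr hπ hπ'
  have hne : Nonempty E := ⟨(hgs fun _ => false).choose⟩
  have hje : Continuous fun e : E => j e.1 := hj.comp continuous_subtype_val
  have hji : Function.Injective fun e : E => j e.1 := fun x y hxy => Subtype.ext (hj' hxy)
  have hemb : IsEmbedding fun e : E => j e.1 := emb_of_continuous_injective hje hji
  have hnot : ¬ OpenSeq E := by
    intro hH
    obtain ⟨D₀, hD0, hD1, hD2⟩ := main_card hco (irr_crowded hg hgs hgi) hH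
      (fun e : E => j e.1) hje hji
    exact hD D₀ hD0 hD2 hD1
  have htd : TotallyDisconnectedSpace E := hemb.isTotallyDisconnected_range.1
    (isTotallyDisconnected_of_totallyDisconnectedSpace _)
  unfold OpenSeq at hnot
  push Not at hnot
  obtain ⟨O, hO, ⟨e₀, he₀⟩, hO2⟩ := hnot
  obtain ⟨b, hb, heb, hbO⟩ := compact_exists_isClopen_in_isOpen hO he₀
  have hcb : CompactSpace b := isCompact_iff_compactSpace.1 hb.isClosed.isCompact
  -- the open copy of `E`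
  have h3 : IsClosedEmbedding fun e : E => j e.1 := hje.isClosedEmbedding hji
  obtain ⟨g', hg'⟩ := copies hco (range fun e : E => j e.1) h3.isClosed_range
  have hh : IsOpenEmbedding (g' ∘ h3.isEmbedding.toHomeomorph) :=
    hg'.comp h3.isEmbedding.toHomeomorph.isOpenEmbedding
  refine ⟨b, inferInstance, hcb, inferInstance, inferInstance, fun e => j e.1.1, ⟨⟨e₀, heb⟩⟩,
    hje.comp continuous_subtype_val, fun x y hxy => Subtype.ext (hji hxy), ?_⟩
  rintro ⟨e, he⟩ 𝒱 h𝒱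
  rcases hch ((g' ∘ h3.isEmbedding.toHomeomorph) e) with ⟨𝒲, h𝒲, hPI⟩ | hbig
  · exfalso
    obtain ⟨W, hW1, hW2, hW3⟩ := char_seq hg hgs hgi (e := e)
      ⟨_, nb_preimage hh.isEmbedding h𝒲, pi_image _ hPI⟩
    obtain ⟨V, hV, heV, hV2⟩ := hO2 e (hbO he) W hW1 hW2
    obtain ⟨N, hN⟩ := hW3 V hV heV
    obtain ⟨n, hn, hn2⟩ := hV2 N
    exact hn2 (hN n hn)
  · have hh2 : IsOpenEmbedding ((g' ∘ h3.isEmbedding.toHomeomorph) ∘ (Subtype.val : b → E)) :=
      hh.comp hb.isOpen.isOpenEmbedding_subtypeVal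
    have h5 := hbig _ (nb_image hh2 h𝒱)
    exact h5.trans Cardinal.mk_image_le

end Pool.Agent.Lib.MP_77266e_gtP
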