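import Pool.Agent.Lib.MP_77266e_gtP.Kill

/-!
# Null sequences from cardinal arithmetic

`tree_count`: a function on `2 ^ κ` with few values takes the same value on two branches which
split at a given level, for `κ` many levels of one branch. `exists_null_tree`: null sequences of
intersections of fewer than `κ` clopen sets in c.o. spaces with fewer than `κ` isolated points.
-/

namespace Pool.Agent.Lib.MP_77266e_gtP

open Set Topology Filter Cardinal
open Pool.Agent.Lib.MP_77266e_gt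

universe u

/-- sets of size less than a regular cardinal are bounded -/
lemma exists_bound {T : Type u} [LinearOrder T] [WellFoundedLT T] (hT : ord #T = Ordinal.type (α := T) (· < ·))
    (hreg : (#T).IsRegular) (S : Set T) (hS : #S < #T) : ∃ i, ∀ s ∈ S, s < i := by
  by_contra hcon
  push Not at hcon
  have h1 : (Set.univ : Set T) ⊆ ⋃ s : S, Set.Iic s.1 := by
    intro i _
    obtain ⟨s, hs, hi⟩ := hcon i
    exact mem_iUnion.2 ⟨⟨s, hs⟩, hi⟩
  have h2 : ∀ s : S, #(Set.Iic s.1) < #T := by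
    intro s
    have h3 : #(Set.Iio s.1) < #T := mk_Iio_lt s.1 hT
    have h4 : Set.Iic s.1 = insert s.1 (Set.Iio s.1) := by
      ext z
      simp only [mem_Iic, mem_insert_iff, mem_Iio]
      exact le_iff_eq_or_lt
    rw [h4]
    exact (mk_insert_le).trans_lt (add_lt_of_lt hreg.aleph0_le h3
      (one_lt_aleph0.trans_le hreg.aleph0_le))
  have h5 : #T ≤ Cardinal.sum fun s : S => #(Set.Iic s.1) := by
    calc #T = #(Set.univ : Set T) := mk_univ.symm
      _ ≤ #(⋃ s : S, Set.Iic s.1) := mk_le_mk_of_subset h1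
      _ ≤ _ := mk_iUnion_le_sum_mk
  exact absurd h5 (not_le.2 (sum_lt_of_isRegular hreg hS h2))

/-- the counting lemma -/
lemma tree_count {T : Type u} [LinearOrder T] [WellFoundedLT T]
    (hT : ord #T = Ordinal.type (α := T) (· < ·)) (hreg : (#T).IsRegular) (hunc : ℵ₀ < #T)
    (hpow : ∀ μ < #T, (2 : Cardinal.{u}) ^ μ < 2 ^ #T) {I : Type u} (hI : #I ≤ 𝔠)
    (t : (T → Bool) → I) :
    ∃ (x : T → Bool) (S : Set T), #S = #T ∧
      ∀ i ∈ S, ∃ y : T → Bool, (∀ j < i, y j = x j) ∧ y i ≠ x i ∧ t y = t x := by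
  classical
  by_contra hcon
  push Not at hcon
  let S : (T → Bool) → Set T := fun x =>
    {i | ∃ y : T → Bool, (∀ j < i, y j = x j) ∧ y i ≠ x i ∧ t y = t x}
  have hS : ∀ x, #(S x) < #T := by
    intro x
    refine lt_of_le_of_ne (mk_set_le _) fun h => ?_
    obtain ⟨i, hi, h1⟩ := hcon x (S x) h
    obtain ⟨y, h2, h3, h4⟩ := hi
    exact h1 y h2 h3 h4
  choose m hm using fun x => exists_bound hT hreg (S x) (hS x)
  have hinj : Function.Injective fun x : T → Bool =>
      ((t x, ⟨m x, fun j => x j.1⟩) : I × (Σ i : T, (Set.Iio i → Bool))) := by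
    intro x y hxy
    have e1 : t x = t y := congrArg Prod.fst hxy
    have e2 : (⟨m x, fun j => x j.1⟩ : Σ i : T, (Set.Iio i → Bool)) = ⟨m y, fun j => y j.1⟩ :=
      congrArg Prod.snd hxy
    have e3 : m x = m y := congrArg Sigma.fst e2
    have e4 : ∀ j, j < m x → x j = y j := by
      have e5 : ∀ (a b : Σ i : T, (Set.Iio i → Bool)), a = b → ∀ j (h : j < a.1) (h' : j < b.1),
          a.2 ⟨j, h⟩ = b.2 ⟨j, h'⟩ := by
        rintro a _ rfl j h h'
        rfl
      intro j hj
      exact e5 _ _ e2 j hj (e3 ▸ hj)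
    by_contra hne
    obtain ⟨k0, hk0⟩ := Function.ne_iff.1 hne
    obtain ⟨k, hk, hmin⟩ := (wellFounded_lt (α := T)).has_min {k | x k ≠ y k} ⟨k0, hk0⟩
    have h1 : ∀ j < k, y j = x j := by
      intro j hj
      by_contra h
      exact hmin j (fun h' => h h'.symm) hj
    have h2 : k ∈ S x := ⟨y, h1, fun h => hk h.symm, e1.symm⟩
    exact hk (e4 k (hm x k h2))
  have h1 := mk_le_of_injective hinj
  rw [mk_prod, lift_id, lift_id, mk_sigma] at h1
  have h2 : #(T → Bool) = 2 ^ #T := by simp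
  rw [h2] at h1
  have h3 : #I < 2 ^ #T := hI.trans_lt (by
    rw [← two_power_aleph0]
    exact hpow _ hunc)
  have h4 : (Cardinal.sum fun i : T => #(Set.Iio i → Bool)) < 2 ^ #T := by
    have h5 : (Cardinal.sum fun i : T => #(Set.Iio i → Bool)) <
        Cardinal.prod fun _ : T => (2 : Cardinal.{u}) ^ #T := by
      refine sum_lt_prod _ _ fun i => ?_
      have h6 : #(Set.Iio i → Bool) = 2 ^ #(Set.Iio i) := by simp
      rw [h6]
      exact hpow _ (mk_Iio_lt i hT)
    rw [prod_const', ← power_mul, mul_eq_self hunc.le] at h5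
    exact h5
  have h7 : ℵ₀ ≤ (2 : Cardinal.{u}) ^ #T := hunc.le.trans (cantor _).le
  exact absurd h1 (not_le.2 (mul_lt_of_lt h7 h3 h4))

section tree

variable {X : Type u} [TopologicalSpace X] [CompactSpace X] [T2Space X]

omit [CompactSpace X] in
/-- open copies of closures of discrete sequences -/
lemma exists_copy
    (hco : ∀ F : Set X, IsClosed F → ∃ U : Set X, IsClopen U ∧ Nonempty (F ≃ₜ U))
    {E : Type u} [TopologicalSpace E] [CompactSpace E] [T2Space E]
    (j : E → X) (hj : Continuous j) (hj' : Function.Injective j) (O : ℕ → Set E)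
    (hO : ∀ n, IsOpen (O n)) (hOd : Pairwise fun m n => Disjoint (O m) (O n)) (s : ℕ → E)
    (hs : ∀ n, s n ∈ O n) :
    ∃ t : ℕ → {x : X | IsOpen ({x} : Set X)}, (Function.Injective fun n => (t n : X)) ∧
      ∀ b : Set E, IsClopen b → ∃ C : Set X, IsClopen C ∧ ∀ n, (t n : X) ∈ C ↔ s n ∈ b := by
  let S : Set E := closure (range s)
  have hSc : CompactSpace S := isCompact_iff_compactSpace.1 isClosed_closure.isCompact
  obtain ⟨g, hg⟩ := emb_open hco (fun x : S => j x.1) (hj.comp continuous_subtype_val)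
    (hj'.comp Subtype.val_injective)
  have hsS : ∀ n, s n ∈ S := fun n => subset_closure (mem_range_self n)
  have hsiso : ∀ n, IsOpen ({⟨s n, hsS n⟩} : Set S) := by
    intro n
    have h1 : ({⟨s n, hsS n⟩} : Set S) = Subtype.val ⁻¹' (O n) := by
      ext x
      constructor
      · rintro rfl; exact hs n
      · intro hx
        by_contra hne
        have hne' : x.1 ∉ ({s n} : Set E) := fun h => hne (Subtype.ext h)
        obtain ⟨y, hy, m, rfl⟩ := mem_closure_iff.1 x.2 (O n ∩ {s n}ᶜ)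
          ((hO n).inter isOpen_compl_singleton) ⟨hx, hne'⟩
        by_cases hmn : m = n
        · exact hy.2 (by rw [hmn]; exact mem_singleton _)
        · exact (hOd hmn).le_bot ⟨hs m, hy.1⟩
    rw [h1]
    exact (hO n).preimage continuous_subtype_val
  refine ⟨fun n => ⟨g ⟨s n, hsS n⟩, by
    have h1 := hg.isOpenMap _ (hsiso n)
    rwa [image_singleton] at h1⟩, ?_, ?_⟩
  · intro m n hmn
    have h1 : s m = s n := congrArg (Subtype.val : S → E) (hg.injective hmn)
    by_contra hne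
    exact (hOd hne).le_bot ⟨hs m, h1 ▸ hs n⟩
  · intro b hb
    have hb' : IsClopen (Subtype.val ⁻¹' b : Set S) := hb.preimage continuous_subtype_val
    refine ⟨g '' (Subtype.val ⁻¹' b), ⟨hg.continuous.isClosedMap _ hb'.1, hg.isOpenMap _ hb'.2⟩,
      fun n => ⟨?_, fun h => ⟨_, h, rfl⟩⟩⟩
    rintro ⟨z, hz, hzn⟩
    have h1 : z = ⟨s n, hsS n⟩ := hg.injective hzn
    rw [h1] at hz
    exact hz

/-- almost disjoint traces of clopen sets -/
lemma disc_of_traces {T : Type u} (t : ℕ → X) (htinj : Function.Injective t)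
    (hto : ∀ n, IsOpen ({t n} : Set X)) (B : T → Set ℕ) (hB : ∀ i, (B i).Infinite)
    (hBd : ∀ i k, i ≠ k → (B i ∩ B k).Finite) (C : T → Set X) (hC : ∀ i, IsClopen (C i))
    (hCt : ∀ i n, t n ∈ C i ↔ n ∈ B i) :
    ∃ D : Set X, #D = #T ∧ ∀ x ∈ D, ∃ V : Set X, IsOpen V ∧ V ∩ D = {x} := by
  choose p hp using fun i => exists_acc (hB i) (htinj.injOn (s := B i))
  have hne : ∀ i n, p i ≠ t n := by
    intro i n h
    obtain ⟨x, hx, hx'⟩ := mem_closure_iff.1 (hp i) _ (hto n) (by rw [h]; exact mem_singleton _)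
    exact hx'.2 ((mem_singleton_iff.1 hx).trans h.symm)
  have h1 : ∀ i, p i ∈ C i := fun i =>
    closure_minimal (by rintro _ ⟨⟨n, hn, rfl⟩, -⟩; exact (hCt i n).2 hn) (hC i).1 (hp i)
  have h2 : ∀ i k, i ≠ k → p i ∉ C k := by
    intro i k hik
    have h3 : t '' B i \ {p i} ⊆ t '' (B i \ B k) ∪ t '' (B i ∩ B k) := by
      rintro _ ⟨⟨n, hn, rfl⟩, -⟩
      by_cases hz : n ∈ B k
      · exact Or.inr ⟨n, ⟨hn, hz⟩, rfl⟩
      · exact Or.inl ⟨n, ⟨hn, hz⟩, rfl⟩
    have h4 := closure_mono h3 (hp i)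
    rw [closure_union, ((hBd i k hik).image t).isClosed.closure_eq] at h4
    rcases h4 with h4 | ⟨n, -, hn⟩
    · have h5 : t '' (B i \ B k) ⊆ (C k)ᶜ := by
        rintro _ ⟨n, hn, rfl⟩ h6
        exact hn.2 ((hCt k n).1 h6)
      exact closure_minimal h5 (hC k).compl.1 h4
    · exact (hne i n hn.symm).elim
  have hpinj : Function.Injective p := by
    intro i k hik
    by_contra h
    exact h2 i k h (hik ▸ h1 k)
  refine ⟨range p, mk_range_eq p hpinj, ?_⟩
  rintro _ ⟨i, rfl⟩
  refine ⟨C i, (hC i).2, ?_⟩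
  ext x
  constructor
  · rintro ⟨hx, k, rfl⟩
    by_cases hki : k = i
    · rw [hki]; exact mem_singleton _
    · exact (h2 k i hki hx).elim
  · rintro rfl
    exact ⟨h1 i, i, rfl⟩

/-- null sequences in spaces with few isolated points -/
theorem exists_null_tree
    (hco : ∀ F : Set X, IsClosed F → ∃ U : Set X, IsClopen U ∧ Nonempty (F ≃ₜ U))
    {κ : Cardinal.{u}} (hreg : κ.IsRegular) (hunc : ℵ₀ < κ) (hκc : κ ≤ 𝔠)
    (hpow : ∀ μ < κ, (2 : Cardinal.{u}) ^ μ < 2 ^ κ)
    (hiso : #{x : X | IsOpen ({x} : Set X)} < κ)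
    {E : Type u} [TopologicalSpace E] [CompactSpace E] [T2Space E]
    (j : E → X) (hj : Continuous j) (hj' : Function.Injective j)
    (Φ O : ℕ → Set E) (hΦ : ∀ n, GC κ (Φ n)) (hO : ∀ n, IsOpen (O n)) (hΦO : ∀ n, Φ n ⊆ O n)
    (hOd : Pairwise fun m n => Disjoint (O m) (O n)) :
    ∃ (e : ℕ → ℕ) (F : ℕ → Set E), Function.Injective e ∧ (∀ n, GC κ (F n)) ∧
      (∀ n, F n ⊆ Φ (e n)) ∧
      ∀ b : Set E, IsClopen b → {n | (F n ∩ b).Nonempty ∧ ¬ F n ⊆ b}.Finite := by
  classical
  by_contra hcon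
  push Not at hcon
  -- the index set
  obtain ⟨T, hTκ⟩ : ∃ T : Type u, #T = κ := ⟨κ.out, mk_out κ⟩
  obtain ⟨oT, wT, hT⟩ := exists_ord_eq_type_lt T
  subst hTκ
  obtain ⟨J, -, hJ2, hJ3⟩ := exists_ad Set.infinite_univ (N := Set.univ)
  have hTc : #T ≤ #(ULift.{u} (ℕ → Bool)) := by
    have h1 : #(ℕ → Bool) = 𝔠 := by
      rw [← Cardinal.power_def, Cardinal.mk_bool, Cardinal.mk_nat, Cardinal.two_power_aleph0]
    rw [Cardinal.mk_uLift, h1, Cardinal.lift_continuum]
    exact hκc
  obtain ⟨ι⟩ := Cardinal.le_def _ _ |>.1 hTc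
  let M : T → Set ℕ := fun i => J (ι i).down
  have hM1 : ∀ i, (M i).Infinite := fun i => hJ2 _
  have hM2 : ∀ i k, i ≠ k → (M i ∩ M k).Finite := fun i k hik =>
    hJ3 _ _ fun h => hik (ι.injective (ULift.down_injective h))
  -- selection of clopen sets
  have hsel : ∀ (F : ℕ → Set E) (N : Set ℕ), ∃ b : Set E, (∀ n, GC #T (F n)) →
      (∀ n, F n ⊆ Φ n) → N.Infinite → IsClopen b ∧
        {n | n ∈ N ∧ (F n ∩ b).Nonempty ∧ ¬ F n ⊆ b}.Infinite := by
    intro F N
    by_cases h : (∀ n, GC #T (F n)) ∧ (∀ n, F n ⊆ Φ n) ∧ N.Infinite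
    · obtain ⟨h1, h2, h3⟩ := h
      obtain ⟨b, hb, hinf⟩ := hcon (fun n => (h3.natEmbedding N n : ℕ))
        (fun n => F (h3.natEmbedding N n : ℕ))
        (Subtype.val_injective.comp (h3.natEmbedding N).injective) (fun n => h1 _) (fun n => h2 _)
      refine ⟨b, fun _ _ _ => ⟨hb, ?_⟩⟩
      refine (Set.Infinite.image (f := fun n => (h3.natEmbedding N n : ℕ)) ?_ hinf).mono ?_
      · exact (Subtype.val_injective.comp (h3.natEmbedding N).injective).injOn
      · rintro _ ⟨n, hn, rfl⟩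
        exact ⟨(h3.natEmbedding N n).2, hn⟩
    · exact ⟨∅, fun h1 h2 h3 => (h ⟨h1, h2, h3⟩).elim⟩
  choose β hβ using hsel
  -- one step
  let st : (ℕ → Set E) → Set ℕ → Bool → ℕ → Set E := fun F N ε n =>
    if (F n ∩ β F N).Nonempty ∧ ¬ F n ⊆ β F N then
      (if n ∈ N ∧ ε = true then β F N else (β F N)ᶜ) else Set.univ
  have hst1 : ∀ F N ε, IsClopen (β F N) → ∀ n, IsClopen (st F N ε n) := by
    intro F N ε hb n
    by_cases h1 : (F n ∩ β F N).Nonempty ∧ ¬ F n ⊆ β F N
    · by_cases h2 : n ∈ N ∧ ε = true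
      · simp only [st, h1, h2, if_true, and_self, not_false_eq_true]; exact hb
      · simp only [st, h1, h2, if_true, if_false, and_self, not_false_eq_true]; exact hb.compl
    · simp only [st, h1, if_false]; exact isClopen_univ
  have hst2 : ∀ F N ε n, (F n).Nonempty → (F n ∩ st F N ε n).Nonempty := by
    intro F N ε n hne
    by_cases h1 : (F n ∩ β F N).Nonempty ∧ ¬ F n ⊆ β F N
    · by_cases h2 : n ∈ N ∧ ε = true
      · simp only [st, h1, h2, if_true, and_self, not_false_eq_true]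
      · simp only [st, h1, h2, if_true, if_false, and_self, not_false_eq_true]
        obtain ⟨z, hz, hz'⟩ := Set.not_subset.1 h1.2
        exact ⟨z, hz, hz'⟩
    · simp only [st, h1, if_false, inter_univ]; exact hne
  -- the tree
  let K : (T → Bool) → T → ℕ → Set E := fun x => (wellFounded_lt (α := T)).fix
    (fun i K' => st (fun n => Φ n ∩ ⋂ k : {k // k < i}, K' k.1 k.2 n) (M i) (x i))
  let FF : (T → Bool) → T → ℕ → Set E := fun x i n => Φ n ∩ ⋂ k : {k // k < i}, K x k.1 n
  have hK : ∀ x i, K x i = st (FF x i) (M i) (x i) := fun x i =>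
    (wellFounded_lt (α := T)).fix_eq _ i
  have hFΦ : ∀ x i n, FF x i n ⊆ Φ n := fun x i n => inter_subset_left
  have hall : ∀ x i n, GC #T (FF x i n) := by
    intro x i
    induction i using (wellFounded_lt (α := T)).induction with
    | _ i ih =>
      intro n
      have hc : ∀ k, k < i → ∀ n, IsClopen (K x k n) := by
        intro k hk n
        rw [hK]
        exact hst1 _ _ _ (hβ _ _ (ih k hk) (hFΦ x k) (hM1 k)).1 n
      refine (hΦ n).iInter hunc.le ?_ _ (fun k => hc k.1 k.2 n) ?_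
      · exact mk_Iio_lt i hT
      · refine chain_ne (· < ·) (Φ n) (hΦ n).isClosed (hΦ n).1 (fun k => K x k n) {k | k < i}
          (fun k hk l hl => lt_trans hl hk) (fun k hk => (hc k hk n).1) (fun k hk => ?_)
        show (FF x k n ∩ K x k n).Nonempty
        rw [hK]
        exact hst2 _ _ _ n (ih k hk n).1
  have hbc : ∀ x i, IsClopen (β (FF x i) (M i)) ∧
      {n | n ∈ M i ∧ (FF x i n ∩ β (FF x i) (M i)).Nonempty ∧
        ¬ FF x i n ⊆ β (FF x i) (M i)}.Infinite :=
    fun x i => hβ _ _ (hall x i) (hFΦ x i) (hM1 i)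
  have hKc : ∀ x i n, IsClopen (K x i n) := by
    intro x i n
    rw [hK]
    exact hst1 _ _ _ (hbc x i).1 n
  have hagree : ∀ x y i, (∀ k < i, y k = x k) → ∀ k < i, K y k = K x k := by
    intro x y i h k
    induction k using (wellFounded_lt (α := T)).induction with
    | _ k ih =>
      intro hk
      have h1 : FF y k = FF x k := by
        funext n
        show Φ n ∩ ⋂ l : {l // l < k}, K y l.1 n = Φ n ∩ ⋂ l : {l // l < k}, K x l.1 n
        have h2 : ∀ l : {l // l < k}, K y l.1 n = K x l.1 n := fun l =>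
          congrFun (ih l.1 l.2 (lt_trans l.2 hk)) n
        rw [iInter_congr h2]
      rw [hK, hK, h1, h k hk]
  have hagree2 : ∀ x y i, (∀ k < i, y k = x k) → FF y i = FF x i := by
    intro x y i h
    funext n
    show Φ n ∩ ⋂ l : {l // l < i}, K y l.1 n = Φ n ∩ ⋂ l : {l // l < i}, K x l.1 n
    have h2 : ∀ l : {l // l < i}, K y l.1 n = K x l.1 n := fun l =>
      congrFun (hagree x y i h l.1 l.2) n
    rw [iInter_congr h2]
  -- the branches
  have hs : ∀ x n, ∃ z, z ∈ Φ n ∧ ∀ i, z ∈ K x i n := by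
    intro x n
    obtain ⟨z, hz1, hz2⟩ := chain_ne (· < ·) (Φ n) (hΦ n).isClosed (hΦ n).1 (fun k => K x k n)
      Set.univ (fun _ _ _ _ => mem_univ _) (fun k _ => (hKc x k n).1) (fun k _ => by
        show (FF x k n ∩ K x k n).Nonempty
        rw [hK]
        exact hst2 _ _ _ n (hall x k n).1)
    exact ⟨z, hz1, fun i => mem_iInter.1 hz2 ⟨i, mem_univ i⟩⟩
  choose s hs1 hs2 using hs
  have hsF : ∀ x i n, s x n ∈ FF x i n := fun x i n =>
    ⟨hs1 x n, mem_iInter.2 fun k => hs2 x n k.1⟩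
  choose t ht1 ht2 using fun x => exists_copy hco j hj hj' O hO hOd (s x)
    (fun n => hΦO n (hs1 x n))
  have hI : #(ℕ → {x : X | IsOpen ({x} : Set X)}) ≤ 𝔠 := by
    rw [Cardinal.mk_arrow, Cardinal.mk_nat, Cardinal.lift_aleph0, Cardinal.lift_uzero]
    exact (Cardinal.power_le_power_right (hiso.le.trans hκc)).trans_eq
      Cardinal.continuum_power_aleph0
  obtain ⟨x, S, hS, hS'⟩ := tree_count hT hreg hunc hpow hI t
  choose y hy1 hy2 hy3 using hS'
  have hC : ∀ i : S, ∃ C : Set X, IsClopen C ∧ ∀ n, (t x n : X) ∈ C ↔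
      n ∈ {n | n ∈ M i ∧ (FF x i n ∩ β (FF x i) (M i)).Nonempty ∧
        ¬ FF x i n ⊆ β (FF x i) (M i)} := by
    rintro ⟨i, hi⟩
    obtain ⟨C1, hC1, hC1'⟩ := ht2 x _ (hbc x i).1
    obtain ⟨C2, hC2, hC2'⟩ := ht2 (y i hi) _ (hbc x i).1
    rw [hy3 i hi] at hC2'
    refine ⟨(C1 \ C2) ∪ (C2 \ C1), (hC1.diff hC2).union (hC2.diff hC1), fun n => ?_⟩
    have e0 : FF (y i hi) i = FF x i := hagree2 _ _ i (hy1 i hi)
    have e1 : s x n ∈ st (FF x i) (M i) (x i) n := by
      rw [← hK]; exact hs2 x n i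
    have e2 : s (y i hi) n ∈ st (FF x i) (M i) (y i hi i) n := by
      rw [← e0, ← hK]; exact hs2 (y i hi) n i
    have e3 : s x n ∈ FF x i n := hsF x i n
    have e4 : s (y i hi) n ∈ FF x i n := by
      rw [← e0]; exact hsF _ i n
    have e5 : ((t x n : X) ∈ (C1 \ C2) ∪ (C2 \ C1)) ↔
        ¬ (s x n ∈ β (FF x i) (M i) ↔ s (y i hi) n ∈ β (FF x i) (M i)) := by
      rw [← hC1' n, ← hC2' n]
      show ((t x n : X) ∈ C1 ∧ (t x n : X) ∉ C2) ∨ ((t x n : X) ∈ C2 ∧ (t x n : X) ∉ C1) ↔ _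
      tauto
    rw [e5]
    by_cases h1 : (FF x i n ∩ β (FF x i) (M i)).Nonempty ∧ ¬ FF x i n ⊆ β (FF x i) (M i)
    · by_cases h2 : n ∈ M i
      · have h3 : n ∈ {n | n ∈ M i ∧ (FF x i n ∩ β (FF x i) (M i)).Nonempty ∧
            ¬ FF x i n ⊆ β (FF x i) (M i)} := ⟨h2, h1⟩
        refine iff_of_true ?_ h3
        have hyx := hy2 i hi
        cases hx : x i with
        | true =>
          have hyi : y i hi i = false := by
            rw [hx] at hyx
            simpa using hyx
          rw [hx] at e1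
          rw [hyi] at e2
          simp only [st, h1, h2, if_true, and_self, not_false_eq_true] at e1
          simp only [st, h1, h2, if_true, if_false, and_false, true_and, not_false_eq_true,
            Bool.false_eq_true] at e2
          intro hiff
          exact e2 (hiff.1 e1)
        | false =>
          have hyi : y i hi i = true := by
            rw [hx] at hyx
            simpa using hyx
          rw [hx] at e1
          rw [hyi] at e2
          simp only [st, h1, h2, if_true, and_self, not_false_eq_true] at e2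
          simp only [st, h1, h2, if_true, if_false, and_false, true_and, not_false_eq_true,
            Bool.false_eq_true] at e1
          intro hiff
          exact e1 (hiff.2 e2)
      · have h3 : n ∉ {n | n ∈ M i ∧ (FF x i n ∩ β (FF x i) (M i)).Nonempty ∧
            ¬ FF x i n ⊆ β (FF x i) (M i)} := fun h => h2 h.1
        refine iff_of_false ?_ h3
        simp only [st, h1, h2, if_true, if_false, false_and, and_self, not_false_eq_true] at e1 e2
        intro hn
        exact hn (iff_of_false e1 e2)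
    · have h3 : n ∉ {n | n ∈ M i ∧ (FF x i n ∩ β (FF x i) (M i)).Nonempty ∧
          ¬ FF x i n ⊆ β (FF x i) (M i)} := fun h => h1 h.2
      refine iff_of_false ?_ h3
      intro hn
      apply hn
      by_cases h4 : (FF x i n ∩ β (FF x i) (M i)).Nonempty
      · have h5 : FF x i n ⊆ β (FF x i) (M i) := by
          by_contra h6
          exact h1 ⟨h4, h6⟩
        exact iff_of_true (h5 e3) (h5 e4)
      · exact iff_of_false (fun h => h4 ⟨_, e3, h⟩) (fun h => h4 ⟨_, e4, h⟩)
  choose C hC1 hC2 using hC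
  obtain ⟨D, hD1, hD2⟩ := disc_of_traces (fun n => (t x n : X)) (ht1 x) (fun n => (t x n).2)
    (fun i : S => {n | n ∈ M i ∧ (FF x i n ∩ β (FF x i) (M i)).Nonempty ∧
        ¬ FF x i n ⊆ β (FF x i) (M i)}) (fun i => (hbc x i).2)
    (fun i k hik => (hM2 i k (fun h => hik (Subtype.ext h))).subset fun n hn => ⟨hn.1.1, hn.2.1⟩)
    C hC1 hC2
  have h1 := disc_le_iso hco D hD2
  rw [hD1, hS] at h1
  exact absurd h1 (not_le.2 hiso)

/-- The nonempty intersections of fewer than `κ` clopen sets form a family with null sequences. -/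
theorem GC_GF_tree
    (hco : ∀ F : Set X, IsClosed F → ∃ U : Set X, IsClopen U ∧ Nonempty (F ≃ₜ U))
    {κ : Cardinal.{u}} (hreg : κ.IsRegular) (hunc : ℵ₀ < κ) (hκc : κ ≤ 𝔠)
    (hpow : ∀ μ < κ, (2 : Cardinal.{u}) ^ μ < 2 ^ κ)
    (hiso : #{x : X | IsOpen ({x} : Set X)} < κ)
    {E : Type u} [TopologicalSpace E] [CompactSpace E] [T2Space E] [TotallyDisconnectedSpace E]
    (j : E → X) (hj : Continuous j) (hj' : Function.Injective j)
    (hch : ∀ (e : E) (𝒱 : Set (Set E)), NB e 𝒱 → κ ≤ #𝒱) : GF {F : Set E | GC κ F} where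
  ne F hF := hF.1
  closed F hF := GC.isClosed hF
  inter F hF b hb hne := GC.inter hunc.le hF hb hne
  crowded F hF := GC.crowded hunc hch hF
  null Φ O hΦ hO hOd hΦO :=
    exists_null_tree hco hreg hunc hκc hpow hiso j hj hj' Φ O hΦ (fun n => (hO n).isOpen) hΦO hOd

end tree

end Pool.Agent.Lib.MP_77266e_gtP
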